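import Pool.Agent.H41.SZ.Bd

/-! SZ-MOD: thin modifications. -/

set_option autoImplicit false

open MeasureTheory Filter Topology Set

namespace Pool.Agent.H41.SZ

theorem tail_le {a b : ℝ → ℝ} (F : Finset ℝ) {t : ℝ} (ht : 0 ≤ t) (ha : Summable a) (hb : Summable b)
    (hb0 : ∀ d, 0 ≤ b d) (h : ∀ d, d ∉ F → |a d| ≤ t * b d) :
    |∑' d, a d - ∑ d ∈ F, a d| ≤ t * ∑' d, b d := by
  classical
  have h1 : Tendsto (fun G : Finset ℝ => |∑ d ∈ G, a d - ∑ d ∈ F, a d|) atTop
      (𝓝 |∑' d, a d - ∑ d ∈ F, a d|) := (ha.hasSum.sub_const _).abs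
  refine le_of_tendsto h1 (eventually_atTop.2 ⟨F, fun G hG => ?_⟩)
  have e : ∑ d ∈ G, a d - ∑ d ∈ F, a d = ∑ d ∈ G \ F, a d := by
    rw [← Finset.sum_sdiff (show F ⊆ G from hG)]; ring
  rw [e]
  refine (Finset.abs_sum_le_sum_abs _ _).trans ?_
  calc ∑ d ∈ G \ F, |a d| ≤ ∑ d ∈ G \ F, t * b d :=
        Finset.sum_le_sum fun d hd => h d (Finset.mem_sdiff.1 hd).2
    _ = t * ∑ d ∈ G \ F, b d := by rw [Finset.mul_sum]
    _ ≤ _ := mul_le_mul_of_nonneg_left (hb.sum_le_tsum _ fun d _ => hb0 d) ht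

theorem exp_diff (a b M : ℝ) (ha : a ≤ M) (hb : b ≤ M) : |Real.exp a - Real.exp b| ≤ |a - b| * Real.exp M := by
  have key : ∀ a b : ℝ, b ≤ a → a ≤ M → Real.exp a - Real.exp b ≤ (a - b) * Real.exp M := by
    intro a b hba haM
    have h1 : Real.exp b = Real.exp a * Real.exp (b - a) := by rw [← Real.exp_add]; congr 1; ring
    have h2 := Real.add_one_le_exp (b - a)
    have h3 := Real.exp_pos a
    have h4 : Real.exp a ≤ Real.exp M := Real.exp_le_exp.2 haM
    have h5 : Real.exp a * (b - a + 1) ≤ Real.exp b := by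
      rw [h1]; exact mul_le_mul_of_nonneg_left h2 h3.le
    nlinarith
  rcases le_total b a with h | h
  · rw [abs_of_nonneg (sub_nonneg.2 (Real.exp_le_exp.2 h)), abs_of_nonneg (sub_nonneg.2 h)]
    exact key a b h ha
  · rw [abs_of_nonpos (sub_nonpos.2 (Real.exp_le_exp.2 h)), abs_of_nonpos (sub_nonpos.2 h)]
    have := key b a h hb
    linarith

/-- lower bound of the members of a system -/
theorem IsSys.least {P : Set ℝ} (h : IsSys P) : ∃ m : ℝ, 1 < m ∧ ∀ p ∈ P, m ≤ p := by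
  classical
  set S : Finset ℝ := Insert.insert (2:ℝ) (h.fin 2).toFinset with hS
  have hne : S.Nonempty := ⟨2, Finset.mem_insert_self _ _⟩
  have hall : ∀ p ∈ S, 1 < p := by
    intro p hp
    rw [hS, Finset.mem_insert] at hp
    rcases hp with h2 | h2
    · rw [h2]; norm_num
    · rw [Set.Finite.mem_toFinset] at h2
      exact h.one_lt _ h2.1
  refine ⟨S.min' hne, ?_, ?_⟩
  · exact hall _ (S.min'_mem hne)
  · intro p hp
    rcases le_or_gt p 2 with h2 | h2
    · apply S.min'_le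
      rw [hS, Finset.mem_insert]
      right
      rw [Set.Finite.mem_toFinset]
      exact ⟨hp, h2⟩
    · refine (S.min'_le 2 (Finset.mem_insert_self _ _)).trans h2.le

theorem IsSys.union {P P' : Set ℝ} (h : IsSys P) (h' : IsSys P') : IsSys (P ∪ P') := by
  refine ⟨?_, fun x => ?_⟩
  · rintro p (hp | hp)
    · exact h.one_lt p hp
    · exact h'.one_lt p hp
  · rw [Set.union_inter_distrib_right]
    exact (h.fin x).union (h'.fin x)

/-- `-log (1 - t) ≤ t / (1 - t)` -/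
theorem neg_log_le {t t0 : ℝ} (ht : 0 ≤ t) (htt : t ≤ t0) (ht0 : t0 < 1) :
    -Real.log (1 - t) ≤ (1 - t0)⁻¹ * t := by
  have h1 := Real.one_sub_inv_le_log_of_pos (show 0 < 1 - t by linarith)
  have h2 : (1 - t)⁻¹ - 1 = (1 - t)⁻¹ * t := by
    have : 1 - t ≠ 0 := by linarith
    field_simp
    ring
  have h3 : (1 - t)⁻¹ ≤ (1 - t0)⁻¹ := inv_anti₀ (by linarith) (by linarith)
  have h4 : (1 - t)⁻¹ * t ≤ (1 - t0)⁻¹ * t := mul_le_mul_of_nonneg_right h3 ht
  linarith

theorem modify {P P' : Set ℝ} (h : IsSys P) (h' : IsSys P') (hN : NumOK P) (hf : Few (symmDiff P P')) : NumOK P' := by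
  classical
  set D := symmDiff P P' with hD
  obtain ⟨c, hc, hN⟩ := hN
  obtain ⟨m, hm1, hm⟩ := (h.union h').least
  have hDm : ∀ d ∈ D, m ≤ d := by
    intro d hd
    apply hm
    rw [hD, Set.mem_symmDiff] at hd
    rcases hd with hd | hd
    · exact Or.inl hd.1
    · exact Or.inr hd.1
  have hD1 : ∀ d ∈ D, 1 < d := fun d hd => lt_of_lt_of_le hm1 (hDm d hd)
  -- summability
  have hsum : ∀ σ : ℝ, 1 / 2 < σ → Summable (D.indicator fun d => d ^ (-σ)) := fun σ hσ =>
    summable_subtype_iff_indicator.1 (hf σ hσ)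
  have hnn : ∀ σ : ℝ, ∀ d, 0 ≤ D.indicator (fun d => d ^ (-σ)) d := by
    intro σ d
    apply Set.indicator_nonneg
    intro d hd
    exact Real.rpow_nonneg (by linarith [hD1 d hd]) _
  set K : ℝ := (1 - m⁻¹)⁻¹ with hK
  have hmi : m⁻¹ < 1 := inv_lt_one_of_one_lt₀ hm1
  have hK0 : 0 < K := inv_pos.2 (by linarith)
  set φ : ℝ → ℝ := fun d => if d ∈ P then Real.log (1 - d⁻¹) else -Real.log (1 - d⁻¹) with hφ
  have hφb : ∀ d ∈ D, |φ d| ≤ K * d ^ (-(1:ℝ)) := by
    intro d hd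
    have hd1 := hD1 d hd
    have hdi : d⁻¹ ≤ m⁻¹ := inv_anti₀ (by linarith) (hDm d hd)
    have hdi0 : 0 < d⁻¹ := inv_pos.2 (by linarith)
    have hdi1 : d⁻¹ < 1 := lt_of_le_of_lt hdi hmi
    have h1 := neg_log_le hdi0.le hdi hmi
    have h2 : Real.log (1 - d⁻¹) ≤ 0 := Real.log_nonpos (by linarith) (by linarith)
    have h3 : |φ d| = -Real.log (1 - d⁻¹) := by
      simp only [hφ]
      split_ifs
      · rw [abs_of_nonpos h2]
      · rw [abs_of_nonneg (by linarith)]
    rw [h3, Real.rpow_neg_one]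
    exact h1
  set a : ℝ → ℝ := D.indicator φ with ha
  have hab : ∀ d, |a d| ≤ K * D.indicator (fun d => d ^ (-(1:ℝ))) d := by
    intro d
    by_cases hd : d ∈ D
    · rw [ha, Set.indicator_of_mem hd, Set.indicator_of_mem hd]; exact hφb d hd
    · rw [ha, Set.indicator_of_notMem hd, Set.indicator_of_notMem hd]; simp
  have has : Summable a := by
    refine Summable.of_norm_bounded ((hsum 1 (by norm_num)).mul_left K) fun d => ?_
    rw [Real.norm_eq_abs]; exact hab d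
  set S₁ : ℝ := ∑' d, D.indicator (fun d => d ^ (-(1:ℝ))) d with hS₁
  have hS₁0 : 0 ≤ S₁ := tsum_nonneg (hnn 1)
  refine ⟨c * Real.exp (∑' d, a d), by positivity, fun ε hε => ?_⟩
  set σ : ℝ := 1 / 2 + min ε (1 / 4) with hσdef
  have hε' : 0 < min ε (1 / 4) := lt_min hε (by norm_num)
  have hσ2 : 1 / 2 < σ := by rw [hσdef]; linarith
  have hσ0 : 0 < σ := by linarith
  have hσ1 : σ < 1 := by
    have := min_le_right ε (1 / 4)
    rw [hσdef]; linarith
  have hσε : σ ≤ 1 / 2 + ε := by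
    have := min_le_left ε (1 / 4)
    rw [hσdef]; linarith
  obtain ⟨A₀, hA₀⟩ := hN (min ε (1 / 4)) hε'
  set A : ℝ := max A₀ c with hA
  have hcA : c ≤ A := le_max_right _ _
  have hA0 : 0 < A := by linarith
  have hBd : Bd P c A σ := by
    refine ⟨hc, hcA, fun x hx => ?_⟩
    rcases lt_or_ge x 1 with h1 | h1
    · rw [num_small h h1, Nat.cast_zero, zero_sub, abs_neg, abs_of_nonneg (by positivity)]
      have : x ≤ x ^ σ := by
        have := Real.rpow_le_rpow_of_exponent_ge hx h1.le hσ1.le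
        rwa [Real.rpow_one] at this
      exact mul_le_mul hcA this hx.le hA0.le
    · refine (hA₀ x h1).trans ?_
      exact mul_le_mul_of_nonneg_right (le_max_left _ _) (by positivity)
  set Sσ : ℝ := ∑' d, D.indicator (fun d => d ^ (-σ)) d with hSσ
  have hSσ0 : 0 ≤ Sσ := tsum_nonneg (hnn σ)
  have hms : m ^ (-σ) < 1 := Real.rpow_lt_one_of_one_lt_of_neg hm1 (by linarith)
  have hms0 : 0 < m ^ (-σ) := Real.rpow_pos_of_pos (by linarith) _
  set κ : ℝ := (1 - m ^ (-σ))⁻¹ with hκ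
  have hκ1 : 1 ≤ κ := by
    rw [hκ]; exact (one_le_inv₀ (by linarith)).2 (by linarith)
  refine ⟨A * Real.exp (κ * Sσ) + c * (K * Sσ) * Real.exp (K * S₁), fun x hx => ?_⟩
  have hx0 : 0 < x := by linarith
  -- the finite sets
  have hfR : ((P \ P') ∩ Iic x).Finite := (h.fin x).subset fun p hp => ⟨hp.1.1, hp.2⟩
  have hfT : ((P' \ P) ∩ Iic x).Finite := (h'.fin x).subset fun p hp => ⟨hp.1.1, hp.2⟩
  set R := hfR.toFinset with hR
  set T := hfT.toFinset with hT
  have mR : ∀ p, p ∈ R ↔ (p ∈ P ∧ p ∉ P') ∧ p ≤ x := by intro p; simp [hR]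
  have mT : ∀ p, p ∈ T ↔ (p ∈ P' ∧ p ∉ P) ∧ p ≤ x := by intro p; simp [hT]
  have hbd := bd_fin h hσ0 hσ1 hBd R T (fun r hr => ((mR r).1 hr).1.1)
    (fun t ht => ⟨h'.one_lt t ((mT t).1 ht).1.1, ((mT t).1 ht).1.2⟩)
  have hnum : num P' x = num ((P \ (↑R : Set ℝ)) ∪ ↑T) x := by
    apply num_congr h'
    · refine (h.union h').mono ?_
      rintro p (hp | hp)
      · exact Or.inl hp.1
      · exact Or.inr ((mT p).1 (Finset.mem_coe.1 hp)).1.1
    · ext p
      simp only [Set.mem_inter_iff, Set.mem_Iic, Set.mem_union, Set.mem_sdiff, Finset.mem_coe, mR, mT]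
      tauto
  have hbx := hbd.2.2 x hx0
  rw [← hnum] at hbx
  have hdisj : Disjoint R T := by
    rw [Finset.disjoint_left]
    intro p hp hp'
    exact ((mT p).1 hp').1.2 ((mR p).1 hp).1.1
  set F := R ∪ T with hF
  have hFD : ∀ p ∈ F, p ∈ D := by
    intro p hp
    rw [hF, Finset.mem_union, mR, mT] at hp
    rw [hD, Set.mem_symmDiff]
    tauto
  have hDF : ∀ p ∈ D, p ∉ F → x < p := by
    intro p hp hpF
    by_contra hc
    push Not at hc
    apply hpF
    rw [hF, Finset.mem_union, mR, mT]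
    rw [hD, Set.mem_symmDiff] at hp
    tauto
  -- the constant
  have hcx : c * (∏ r ∈ R, (1 - r⁻¹)) * ∏ t ∈ T, (1 - t⁻¹)⁻¹ = c * Real.exp (∑ d ∈ F, a d) := by
    have g1 : ∏ r ∈ R, (1 - r⁻¹) = Real.exp (∑ d ∈ R, a d) := by
      rw [Real.exp_sum]
      refine Finset.prod_congr rfl fun r hr => ?_
      have hrD := hFD r (Finset.mem_union_left _ hr)
      rw [ha, Set.indicator_of_mem hrD]
      simp only [hφ, if_pos ((mR r).1 hr).1.1]
      rw [Real.exp_log]
      have := inv_lt_one_of_one_lt₀ (hD1 r hrD)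
      linarith
    have g2 : ∏ t ∈ T, (1 - t⁻¹)⁻¹ = Real.exp (∑ d ∈ T, a d) := by
      rw [Real.exp_sum]
      refine Finset.prod_congr rfl fun t ht => ?_
      have htD := hFD t (Finset.mem_union_right _ ht)
      rw [ha, Set.indicator_of_mem htD]
      simp only [hφ, if_neg ((mT t).1 ht).1.2]
      rw [Real.exp_neg, Real.exp_log]
      have := inv_lt_one_of_one_lt₀ (hD1 t htD)
      linarith
    rw [g1, g2, mul_assoc, ← Real.exp_add, hF, Finset.sum_union hdisj]
  have hsF : ∑ d ∈ F, d ^ (-σ) ≤ Sσ := by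
    have e : ∑ d ∈ F, d ^ (-σ) = ∑ d ∈ F, D.indicator (fun d => d ^ (-σ)) d :=
      Finset.sum_congr rfl fun d hd => by rw [Set.indicator_of_mem (hFD d hd)]
    rw [e]
    exact (hsum σ hσ2).sum_le_tsum _ fun d _ => hnn σ d
  have hAx : A * (∏ r ∈ R, (1 + r ^ (-σ))) * ∏ t ∈ T, (1 - t ^ (-σ))⁻¹ ≤ A * Real.exp (κ * Sσ) := by
    have g1 : ∏ r ∈ R, (1 + r ^ (-σ)) ≤ Real.exp (∑ r ∈ R, κ * r ^ (-σ)) := by
      rw [Real.exp_sum]
      refine Finset.prod_le_prod (fun r hr => ?_) fun r hr => ?_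
      · have := hD1 r (hFD r (Finset.mem_union_left _ hr))
        positivity
      · have h1 := hD1 r (hFD r (Finset.mem_union_left _ hr))
        have h2 : 0 < r ^ (-σ) := Real.rpow_pos_of_pos (by linarith) _
        have h3 := Real.add_one_le_exp (r ^ (-σ))
        have h4 : Real.exp (r ^ (-σ)) ≤ Real.exp (κ * r ^ (-σ)) := Real.exp_le_exp.2 (by nlinarith)
        linarith
    have g2 : ∏ t ∈ T, (1 - t ^ (-σ))⁻¹ ≤ Real.exp (∑ t ∈ T, κ * t ^ (-σ)) := by
      rw [Real.exp_sum]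
      refine Finset.prod_le_prod (fun t ht => ?_) fun t ht => ?_
      · have h1 := hD1 t (hFD t (Finset.mem_union_right _ ht))
        have h2 : t ^ (-σ) < 1 := Real.rpow_lt_one_of_one_lt_of_neg h1 (by linarith)
        exact inv_nonneg.2 (by linarith)
      · have htD := hFD t (Finset.mem_union_right _ ht)
        have h1 := hD1 t htD
        have h2 : t ^ (-σ) < 1 := Real.rpow_lt_one_of_one_lt_of_neg h1 (by linarith)
        have h3 : 0 < t ^ (-σ) := Real.rpow_pos_of_pos (by linarith) _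
        have h4 : t ^ (-σ) ≤ m ^ (-σ) :=
          Real.rpow_le_rpow_of_nonpos (by linarith) (hDm t htD) (by linarith)
        have h5 := neg_log_le h3.le h4 hms
        have h6 : (1 - t ^ (-σ))⁻¹ = Real.exp (-Real.log (1 - t ^ (-σ))) := by
          rw [Real.exp_neg, Real.exp_log (by linarith)]
        rw [h6]
        exact Real.exp_le_exp.2 h5
    have g3 : 0 ≤ ∏ t ∈ T, (1 - t ^ (-σ))⁻¹ := by
      refine Finset.prod_nonneg fun t ht => ?_
      have h1 := hD1 t (hFD t (Finset.mem_union_right _ ht))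
      have h2 : t ^ (-σ) < 1 := Real.rpow_lt_one_of_one_lt_of_neg h1 (by linarith)
      exact inv_nonneg.2 (by linarith)
    have g4 : (∏ r ∈ R, (1 + r ^ (-σ))) * ∏ t ∈ T, (1 - t ^ (-σ))⁻¹ ≤ Real.exp (κ * Sσ) := by
      calc _ ≤ Real.exp (∑ r ∈ R, κ * r ^ (-σ)) * Real.exp (∑ t ∈ T, κ * t ^ (-σ)) :=
            mul_le_mul g1 g2 g3 (Real.exp_pos _).le
        _ = Real.exp (κ * ∑ d ∈ F, d ^ (-σ)) := by
            rw [← Real.exp_add, hF, Finset.sum_union hdisj, mul_add, Finset.mul_sum, Finset.mul_sum]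
        _ ≤ _ := Real.exp_le_exp.2 (mul_le_mul_of_nonneg_left hsF (by linarith))
    rw [mul_assoc]
    exact mul_le_mul_of_nonneg_left g4 hA0.le
  -- the tail
  have htail : |∑' d, a d - ∑ d ∈ F, a d| ≤ (K * x ^ (σ - 1)) * Sσ := by
    apply tail_le F (by positivity) has (hsum σ hσ2) (hnn σ)
    intro d hd
    by_cases hdD : d ∈ D
    · have hxd := hDF d hdD hd
      rw [ha, Set.indicator_of_mem hdD, Set.indicator_of_mem hdD]
      refine (hφb d hdD).trans ?_
      have h1 : d ^ (-(1:ℝ)) = d ^ (σ - 1) * d ^ (-σ) := by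
        rw [← Real.rpow_add (by linarith)]; congr 1; ring
      have h2 : d ^ (σ - 1) ≤ x ^ (σ - 1) := Real.rpow_le_rpow_of_nonpos hx0 hxd.le (by linarith)
      have h3 : 0 ≤ d ^ (-σ) := Real.rpow_nonneg (by linarith) _
      rw [h1, mul_assoc]
      exact mul_le_mul_of_nonneg_left (mul_le_mul_of_nonneg_right h2 h3) hK0.le
    · rw [ha, Set.indicator_of_notMem hdD, Set.indicator_of_notMem hdD]; simp
  have hS1 : ∑' d, a d ≤ K * S₁ := by
    rw [hS₁, ← tsum_mul_left]
    exact has.tsum_le_tsum (fun d => (le_abs_self _).trans (hab d)) ((hsum 1 (by norm_num)).mul_left K)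
  have hS2 : ∑ d ∈ F, a d ≤ K * S₁ := by
    calc ∑ d ∈ F, a d ≤ ∑ d ∈ F, K * D.indicator (fun d => d ^ (-(1:ℝ))) d :=
          Finset.sum_le_sum fun d _ => (le_abs_self _).trans (hab d)
      _ = K * ∑ d ∈ F, D.indicator (fun d => d ^ (-(1:ℝ))) d := by rw [Finset.mul_sum]
      _ ≤ _ := mul_le_mul_of_nonneg_left
          ((hsum 1 (by norm_num)).sum_le_tsum _ fun d _ => hnn 1 d) hK0.le
  have hexp := exp_diff _ _ _ hS1 hS2
  have hxx : x ^ (σ - 1) * x = x ^ σ := by
    rw [← Real.rpow_add_one hx0.ne']; congr 1; ring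
  rw [hcx] at hbx
  have hfin1 : |(num P' x : ℝ) - c * Real.exp (∑ d ∈ F, a d) * x| ≤ A * Real.exp (κ * Sσ) * x ^ σ :=
    hbx.trans (mul_le_mul_of_nonneg_right hAx (by positivity))
  have hfin2 : |c * Real.exp (∑' d, a d) * x - c * Real.exp (∑ d ∈ F, a d) * x| ≤
      c * (K * Sσ) * Real.exp (K * S₁) * x ^ σ := by
    have e : c * Real.exp (∑' d, a d) * x - c * Real.exp (∑ d ∈ F, a d) * x =
        (c * x) * (Real.exp (∑' d, a d) - Real.exp (∑ d ∈ F, a d)) := by ring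
    rw [e, abs_mul, abs_of_pos (by positivity)]
    calc c * x * |Real.exp (∑' d, a d) - Real.exp (∑ d ∈ F, a d)|
        ≤ c * x * (((K * x ^ (σ - 1)) * Sσ) * Real.exp (K * S₁)) := by
          apply mul_le_mul_of_nonneg_left _ (by positivity)
          exact hexp.trans (mul_le_mul_of_nonneg_right htail (Real.exp_pos _).le)
      _ = c * (K * Sσ) * Real.exp (K * S₁) * (x ^ (σ - 1) * x) := by ring
      _ = _ := by rw [hxx]
  have hfin : |(num P' x : ℝ) - c * Real.exp (∑' d, a d) * x| ≤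
      (A * Real.exp (κ * Sσ) + c * (K * Sσ) * Real.exp (K * S₁)) * x ^ σ := by
    have e : (num P' x : ℝ) - c * Real.exp (∑' d, a d) * x =
        ((num P' x : ℝ) - c * Real.exp (∑ d ∈ F, a d) * x) -
        (c * Real.exp (∑' d, a d) * x - c * Real.exp (∑ d ∈ F, a d) * x) := by ring
    rw [e, add_mul]
    exact (abs_sub _ _).trans (add_le_add hfin1 hfin2)
  refine hfin.trans ?_
  apply mul_le_mul_of_nonneg_left _ (by positivity)
  exact Real.rpow_le_rpow_of_exponent_le hx hσε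

end Pool.Agent.H41.SZ
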