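import Pool.Agent.H41.SZ.Defs

/-! # Project SZ, SZ-ADM (helper91): necessary conditions, Cramér's conjecture -/

set_option autoImplicit false

open MeasureTheory Filter Topology Set

namespace Pool.Agent.H41.SZ

lemma log_sq_mono {w z : ℝ} (hw : 1 ≤ w) (h : w ≤ z) : Real.log w ^ 2 ≤ Real.log z ^ 2 := by
  have h1 : 0 ≤ Real.log w := Real.log_nonneg hw
  have h2 : Real.log w ≤ Real.log z := Real.log_le_log (by linarith) h
  exact pow_le_pow_left₀ h1 h2 2

theorem exc_adm {y : ℝ} (hy : 8 ≤ y) (P : Set ℝ) : Adm y (Exc y P) where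
  gt x hx := hx.1
  closed x hx hxy := by
    refine ⟨hxy, fun p hp hcon => ?_⟩
    obtain ⟨h1, h2⟩ := hcon
    have hx0 : x ≠ 0 := by linarith
    have hcont : ContinuousAt (fun w : ℝ => w + Real.log w ^ 2) x :=
      continuousAt_id.add ((Real.continuousAt_log hx0).pow 2)
    have hev : ∀ᶠ w in 𝓝 x, w < p ∧ p < w + Real.log w ^ 2 :=
      (eventually_lt_nhds h1).and (hcont.eventually (lt_mem_nhds h2))
    obtain ⟨w, hw1, hw2⟩ := (mem_closure_iff_frequently.1 hx).and_eventually hev |>.exists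
    exact hw1.2 p hp hw2
  fill x hx z hz hxz hzx w hw := by
    refine ⟨hx.1.trans_le hw.1, fun p hp hcon => ?_⟩
    obtain ⟨h1, h2⟩ := hcon
    have hx8 : y < x := hx.1
    have hwz := log_sq_mono (w := w) (z := z) (by linarith [hw.1]) hw.2
    by_cases hpx : p < x + Real.log x ^ 2
    · exact hx.2 p hp ⟨by linarith [hw.1], hpx⟩
    · push Not at hpx
      exact hz.2 p hp ⟨by linarith, by linarith [hw.2]⟩

theorem thin_of_cr {y : ℝ} (hy : 8 ≤ y) {P : Set ℝ} (h : CrU P) : Thin (Exc y P) := by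
  intro δ hδ
  obtain ⟨X, hX⟩ := eventually_atTop.1 (h (δ / 2) (by linarith))
  refine ⟨X, fun x hx hXx => ?_⟩
  by_contra hcon
  push Not at hcon
  obtain ⟨p, hp, h1, h2⟩ := hX x hXx
  have hx8 : y < x := hx.1
  have hL : 0 < Real.log x ^ 2 := by
    have : 0 < Real.log x := Real.log_pos (by linarith)
    positivity
  -- all points of `[x, x + δ L)` are exceptions
  have hge : x + Real.log x ^ 2 ≤ p := by
    by_contra hc
    push Not at hc
    exact hx.2 p hp ⟨h1, hc⟩
  -- `w` slightly larger than `p - L`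
  set L := Real.log x ^ 2 with hLd
  have hδL : 0 < δ * L := mul_pos hδ hL
  set w := p - L + min (δ * L / 4) (L / 2) with hw
  have hm1 : min (δ * L / 4) (L / 2) ≤ δ * L / 4 := min_le_left _ _
  have hm2 : min (δ * L / 4) (L / 2) ≤ L / 2 := min_le_right _ _
  have hm0 : 0 < min (δ * L / 4) (L / 2) := lt_min (by linarith) (by linarith)
  have hw1 : x < w := by linarith
  have hw2 : w < x + δ * L := by linarith
  have hwE := hcon w hw1 hw2
  have hlog := log_sq_mono (w := x) (z := w) (by linarith) hw1.le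
  exact hwE.2 p hp ⟨by linarith, by linarith⟩

/-- `log (x + (log x)^2) ^ 2` is at most `(1 + δ) log x ^ 2` for large `x` -/
lemma log_shift {δ : ℝ} (hδ : 0 < δ) : ∀ᶠ x : ℝ in atTop, ∀ w, x ≤ w → w ≤ x + Real.log x ^ 2 →
    Real.log w ^ 2 ≤ (1 + δ) * Real.log x ^ 2 := by
  have h1 : ∀ᶠ x : ℝ in atTop, Real.log x ^ 2 ≤ x := by
    have := (Real.isLittleO_pow_log_id_atTop (n := 2)).bound (show (0 : ℝ) < 1 by norm_num)
    filter_upwards [this, eventually_ge_atTop 1] with x hx hx1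
    rw [one_mul, Real.norm_of_nonneg (by positivity), id, Real.norm_of_nonneg (by linarith)] at hx
    exact hx
  have h2 : ∀ᶠ x : ℝ in atTop, 4 / δ ≤ Real.log x := Real.tendsto_log_atTop.eventually_ge_atTop _
  have h3 : ∀ᶠ x : ℝ in atTop, 1 ≤ Real.log x := Real.tendsto_log_atTop.eventually_ge_atTop _
  filter_upwards [h1, h2, h3, eventually_ge_atTop 8] with x hx1 hx2 hx3 hx8
  intro w hw1 hw2
  have hl : Real.log w ≤ Real.log x + 1 := by
    have h4 : Real.log w ≤ Real.log (2 * x) := Real.log_le_log (by linarith) (by linarith)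
    rw [Real.log_mul (by norm_num) (by linarith)] at h4
    have := Real.log_two_lt_d9
    linarith
  have h0 : 0 ≤ Real.log w := Real.log_nonneg (by linarith)
  have h5 : Real.log w ^ 2 ≤ (Real.log x + 1) ^ 2 := pow_le_pow_left₀ h0 hl 2
  have h6 : 4 ≤ δ * Real.log x := by
    rw [div_le_iff₀ hδ] at hx2
    linarith
  nlinarith

theorem cr_of_thin {y : ℝ} (hy : 8 ≤ y) {P : Set ℝ} (h : Thin (Exc y P)) : CrU P := by
  intro δ hδ
  set ε : ℝ := min (δ / 3) 1 with hε
  have hε0 : 0 < ε := lt_min (by linarith) one_pos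
  have hε1 : ε ≤ δ / 3 := min_le_left _ _
  have hε2 : ε ≤ 1 := min_le_right _ _
  obtain ⟨X, hX⟩ := h ε hε0
  filter_upwards [log_shift (δ := δ / 3) (by linarith), eventually_ge_atTop X, eventually_gt_atTop y]
    with x hx1 hx2 hx3
  have hL : 0 < Real.log x ^ 2 := by
    have : 0 < Real.log x := Real.log_pos (by linarith)
    positivity
  by_cases hxE : x ∈ Exc y P
  · obtain ⟨w, w1, w2, w3⟩ := hX x hxE hx2
    have w4 : ¬ ∀ p ∈ P, ¬ (w < p ∧ p < w + Real.log w ^ 2) := fun hc => w3 ⟨by linarith, hc⟩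
    push Not at w4
    obtain ⟨p, hp, p1, p2⟩ := w4
    have h6 : ε * Real.log x ^ 2 ≤ 1 * Real.log x ^ 2 := mul_le_mul_of_nonneg_right hε2 hL.le
    have h5 := hx1 w w1.le (by linarith)
    have h7 : ε * Real.log x ^ 2 ≤ δ / 3 * Real.log x ^ 2 := mul_le_mul_of_nonneg_right hε1 hL.le
    have h8 : 0 < δ * Real.log x ^ 2 := mul_pos hδ hL
    exact ⟨p, hp, by linarith, by nlinarith⟩
  · have w4 : ¬ ∀ p ∈ P, ¬ (x < p ∧ p < x + Real.log x ^ 2) := fun hc => hxE ⟨hx3, hc⟩
    push Not at w4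
    obtain ⟨p, hp, p1, p2⟩ := w4
    have h8 : 0 < δ * Real.log x ^ 2 := mul_pos hδ hL
    exact ⟨p, hp, p1, by nlinarith⟩

end Pool.Agent.H41.SZ
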