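import Pool.Agent.H41.SZ.Defs
import Pool.Agent.H41.PM.Sys
import Pool.Agent.H41.BC.Tm

/-! SZ-BASE: the base system. -/

set_option autoImplicit false

open MeasureTheory Filter Topology Set

namespace Pool.Agent.H41.SZ

namespace BaseAux

theorem dens : PM.Dens BC.f 10 where
  start := by norm_num
  cont := BC.f_cont
  nonneg := fun v hv => by have := BC.one_le_f (v := v) (by linarith); linarith
  upper := fun v hv => by
    rw [BC.f_eq (by linarith), div_le_iff₀ (by linarith)]
    have := Real.exp_pos v
    nlinarith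
  mass := fun v hv => by
    have := BC.len_le_f (a := v) (b := v + 1) (by linarith) (by linarith)
    linarith
  dev := fun σ hσ => by
    have h1 : IntegrableOn (fun v : ℝ => Real.exp (-σ * v)) (Ici 10) := by
      rw [integrableOn_Ici_iff_integrableOn_Ioi]
      exact exp_neg_integrableOn_Ioi 10 (by linarith)
    refine Integrable.mono' h1 ?_ ?_
    · apply Continuous.aestronglyMeasurable
      exact ((BC.g_cont.sub BC.f_cont).abs).mul (by fun_prop)
    · refine (ae_restrict_iff' measurableSet_Ici).2 (Eventually.of_forall fun v hv => ?_)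
      have hv10 : (10 : ℝ) ≤ v := hv
      have e1 : BC.g v - BC.f v = -(1 / v) := by
        rw [BC.g_eq (by linarith), BC.f_eq (by linarith)]
        have : v ≠ 0 := by linarith
        field_simp
        ring
      rw [e1, abs_neg, abs_of_nonneg (by positivity), Real.norm_of_nonneg (by positivity)]
      have e2 : -σ * v = -(σ * v) := by ring
      rw [e2]
      have h2 : 1 / v ≤ 1 := by rw [div_le_one (by linarith)]; linarith
      have := Real.exp_pos (-(σ * v))
      nlinarith

theorem f_nn (v : ℝ) : 0 ≤ BC.f v := by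
  unfold BC.f; positivity

end BaseAux

open BaseAux in
theorem base : ∃ P0 : Set ℝ, IsSys P0 ∧ NumOK P0 ∧ CntOK P0 ∧ (∀ n : ℕ, (P0 ∩ Ico (n : ℝ) (n + 1)).ncard ≤ 3) ∧
    ∃ X0 : ℝ, ∀ x, X0 ≤ x → ∃ p ∈ P0, x < p ∧ p < x + Real.log x ^ 2 := by
  classical
  obtain ⟨W, hmono, hgt, htend, hcount, c, hc, hN⟩ := PM.dens_system dens
  let e : ℕ ↪ ℝ := ⟨fun n => Real.exp (W n), (Real.exp_strictMono.comp hmono).injective⟩
  have he : ∀ n, e n = Real.exp (W n) := fun n => rfl
  set P0 : Set ℝ := range e with hP0
  have hfinN : ∀ v : ℝ, {n : ℕ | W n ≤ v}.Finite := by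
    intro v
    have h1 := htend.eventually_gt_atTop v
    obtain ⟨N, hN⟩ := eventually_atTop.1 h1
    refine (Set.finite_Iio N).subset fun n hn => ?_
    by_contra hc
    have := hN n (not_lt.1 hc)
    exact absurd this (not_lt.2 hn)
  have hcap : ∀ x : ℝ, 0 < x → P0 ∩ Iic x = e '' {n : ℕ | W n ≤ Real.log x} := by
    intro x hx
    ext p
    constructor
    · rintro ⟨⟨n, rfl⟩, hn⟩
      exact ⟨n, (Real.le_log_iff_exp_le hx).2 hn, rfl⟩
    · rintro ⟨n, hn, rfl⟩
      exact ⟨⟨n, rfl⟩, (Real.le_log_iff_exp_le hx).1 hn⟩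
  have hneg : ∀ x : ℝ, x ≤ 0 → P0 ∩ Iic x = ∅ := by
    intro x hx
    rw [Set.eq_empty_iff_forall_notMem]
    rintro p ⟨⟨n, rfl⟩, hn⟩
    have h1 : Real.exp (W n) ≤ x := hn
    have := Real.exp_pos (W n)
    linarith
  have hsys : IsSys P0 := by
    refine ⟨?_, fun x => ?_⟩
    · rintro p ⟨n, rfl⟩
      rw [he]
      exact Real.one_lt_exp_iff.2 (by linarith [hgt n])
    · rcases le_or_gt x 0 with h0 | h0
      · rw [hneg x h0]; exact Set.finite_empty
      · rw [hcap x h0]; exact (hfinN _).image _
  have hcnt : ∀ x : ℝ, 0 < x → cnt P0 x = {n : ℕ | W n ≤ Real.log x}.ncard := by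
    intro x hx
    rw [cnt, hcap x hx, Set.ncard_image_of_injective _ e.injective]
  -- the primitive
  set G : ℝ → ℝ := fun x => ∫ v in (10:ℝ)..max 10 (Real.log x), BC.f v with hG
  have hcG : ∀ x : ℝ, 0 < x → |(cnt P0 x : ℝ) - G x| ≤ 1 := by
    intro x hx
    rw [hcnt x hx]
    rcases le_or_gt 10 (Real.log x) with h1 | h1
    · simp only [hG, max_eq_right h1]
      exact hcount _ h1
    · have e1 : {n : ℕ | W n ≤ Real.log x} = ∅ := by
        rw [Set.eq_empty_iff_forall_notMem]
        intro n hn
        have h2 : W n ≤ Real.log x := hn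
        linarith [hgt n]
      simp only [hG, max_eq_left h1.le, intervalIntegral.integral_same, e1, Set.ncard_empty]
      simp
  have hGdiff : ∀ a b : ℝ, 0 < a → a ≤ b → G b - G a ≤ (b - a) / 10 := by
    intro a b ha hab
    set A := max 10 (Real.log a) with hA
    set B := max 10 (Real.log b) with hB
    have hA10 : 10 ≤ A := le_max_left _ _
    have hAB : A ≤ B := max_le_max le_rfl (Real.log_le_log ha hab)
    have h1 : G b - G a = ∫ v in A..B, BC.f v := by
      simp only [hG]
      rw [BC.f_add 10 A B]; ring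
    have h2 := (BC.f_bounds (a := A) (b := B) (by linarith) hAB).2
    have h3 : Real.exp B - Real.exp A ≤ b - a := by
      have eA : Real.exp A = max (Real.exp 10) a := by
        rw [hA, Real.exp_monotone.map_max, Real.exp_log ha]
      have eB : Real.exp B = max (Real.exp 10) b := by
        rw [hB, Real.exp_monotone.map_max, Real.exp_log (by linarith)]
      rw [eA, eB]
      rcases le_total (Real.exp 10) a with h4 | h4
      · rw [max_eq_right h4, max_eq_right (h4.trans hab)]
      · rw [max_eq_left h4]
        rcases le_total (Real.exp 10) b with h5 | h5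
        · rw [max_eq_right h5]; linarith
        · rw [max_eq_left h5]; linarith
    have h4 : 0 ≤ Real.exp B - Real.exp A := by
      have := Real.exp_le_exp.2 hAB; linarith
    rw [h1]
    refine h2.trans ?_
    calc (Real.exp B - Real.exp A) / A ≤ (Real.exp B - Real.exp A) / 10 :=
          div_le_div_of_nonneg_left h4 (by norm_num) hA10
      _ ≤ (b - a) / 10 := by linarith
  have hG0 : ∀ x, 0 ≤ G x := fun x =>
    intervalIntegral.integral_nonneg (le_max_left _ _) fun v _ => f_nn v
  refine ⟨P0, hsys, ⟨c, hc, fun ε hε => ?_⟩, fun ε hε => ?_, fun n => ?_, Real.exp 10, fun x hx => ?_⟩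
  · -- integers
    obtain ⟨A, hA⟩ := hN ε hε
    refine ⟨A, fun x hx => ?_⟩
    have hnn : num P0 x = BC.NN W x := by
      have e1 : ints P0 x = Finsupp.embDomain e '' {a : ℕ →₀ ℕ | Real.exp (BC.lg W a) ≤ x} := by
        ext a
        constructor
        · rintro ⟨h1, h2⟩
          have hs : (a.support : Set ℝ) ⊆ range e := fun p hp =>
            h1 p (Finsupp.mem_support_iff.1 (Finset.mem_coe.1 hp))
          have h3 := Finsupp.embDomain_comapDomain hs
          refine ⟨_, ?_, h3⟩
          show Real.exp (BC.lg W _) ≤ x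
          rw [PM.SysAux.exp_lg]
          rw [← h3, Finsupp.prod_embDomain] at h2
          exact h2
        · rintro ⟨b, hb, rfl⟩
          refine ⟨fun p hp => ?_, ?_⟩
          · by_contra hcon
            exact hp (Finsupp.embDomain_of_notMem_range _ _ _ hcon)
          · rw [Finsupp.prod_embDomain]
            have hb' : Real.exp (BC.lg W b) ≤ x := hb
            rw [PM.SysAux.exp_lg] at hb'
            exact hb'
      rw [num, e1, Set.ncard_image_of_injective _ (Finsupp.embDomain_injective e)]
      rfl
    rw [hnn]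
    exact hA x hx
  · -- the prime number theorem
    set I := ∫ t in (2:ℝ)..Real.exp 10, 1 / Real.log t with hI
    have h2e : (2:ℝ) ≤ Real.exp 10 := by
      have := Real.add_one_le_exp (10:ℝ); linarith
    have hnnI : ∀ a b : ℝ, 2 ≤ a → a ≤ b → 0 ≤ ∫ t in a..b, 1 / Real.log t := by
      intro a b ha hab
      apply intervalIntegral.integral_nonneg hab
      intro t ht
      have := Real.log_nonneg (show 1 ≤ t by linarith [ht.1])
      positivity
    have hadd : ∀ a b c : ℝ, 2 ≤ a → a ≤ b → b ≤ c →
        ∫ t in a..c, 1 / Real.log t = (∫ t in a..b, 1 / Real.log t) + ∫ t in b..c, 1 / Real.log t := by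
      intro a b c ha hab hbc
      exact (intervalIntegral.integral_add_adjacent_intervals
        (PM.SysAux.log_cont (by linarith) hab) (PM.SysAux.log_cont (by linarith) hbc)).symm
    refine ⟨1 + I, fun x hx => ?_⟩
    have hx0 : 0 < x := by linarith
    have hI0 : 0 ≤ I := hnnI _ _ le_rfl h2e
    have hpow : 1 ≤ x ^ (1 / 2 + ε) := Real.one_le_rpow (by linarith) (by linarith)
    have hmain : |(cnt P0 x : ℝ) - ∫ t in (2:ℝ)..x, 1 / Real.log t| ≤ 1 + I := by
      rcases le_or_gt (Real.exp 10) x with h1 | h1
      · have h10 : 10 ≤ Real.log x := (Real.le_log_iff_exp_le hx0).2 h1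
        have h3 := hcG x hx0
        have h4 : G x = ∫ t in Real.exp 10..x, 1 / Real.log t := by
          simp only [hG, max_eq_right h10]
          have := PM.SysAux.li_f (r := fun _ => (1:ℝ)) continuous_const (a := 10) (b := Real.log x)
            (by norm_num) h10
          rw [Real.exp_log hx0] at this
          rw [this]
          simp
        rw [hadd 2 (Real.exp 10) x le_rfl h2e h1, ← h4]
        have e3 : (cnt P0 x : ℝ) - ((∫ t in (2:ℝ)..Real.exp 10, 1 / Real.log t) + G x) =
            ((cnt P0 x : ℝ) - G x) - I := by rw [hI]; ring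
        rw [e3]
        refine (abs_sub _ _).trans ?_
        rw [abs_of_nonneg hI0]
        linarith
      · have h3 : cnt P0 x = 0 := by
          rw [hcnt x hx0]
          have e1 : {n : ℕ | W n ≤ Real.log x} = ∅ := by
            rw [Set.eq_empty_iff_forall_notMem]
            intro n hn
            have h2 : W n ≤ Real.log x := hn
            have h4 : Real.log x < 10 := (Real.log_lt_iff_lt_exp hx0).2 h1
            linarith [hgt n]
          rw [e1, Set.ncard_empty]
        rw [h3, Nat.cast_zero, zero_sub, abs_neg, abs_of_nonneg (hnnI _ _ le_rfl hx)]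
        have h5 := hadd 2 x (Real.exp 10) le_rfl hx h1.le
        have h6 := hnnI x (Real.exp 10) hx h1.le
        rw [hI, h5]
        linarith
    have : 0 ≤ 1 + I := by linarith
    nlinarith
  · -- few members in unit intervals
    rcases Nat.eq_zero_or_pos n with h0 | h0
    · have : P0 ∩ Ico ((n:ℕ) : ℝ) (n + 1) = ∅ := by
        rw [Set.eq_empty_iff_forall_notMem]
        rintro p ⟨⟨k, rfl⟩, hk⟩
        rw [h0] at hk
        have h1 : Real.exp (W k) < 1 := by
          have := hk.2
          push_cast at this
          rw [he] at this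
          linarith
        have h2 := Real.one_lt_exp_iff.2 (show 0 < W k by linarith [hgt k])
        linarith
      rw [this, Set.ncard_empty]
      norm_num
    · have hn1 : (1:ℝ) ≤ n := by exact_mod_cast h0
      set a : ℝ := n - 1 / 2 with ha
      set b : ℝ := n + 1 with hb
      have ha0 : 0 < a := by rw [ha]; linarith
      have hab : a ≤ b := by rw [ha, hb]; linarith
      have h1 := hcG a ha0
      have h2 := hcG b (by linarith)
      have h3 := hGdiff a b ha0 hab
      have h4 : (P0 ∩ Ico (n : ℝ) (n + 1)).ncard + cnt P0 a ≤ cnt P0 b := by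
        have hdis : Disjoint (P0 ∩ Ico (n : ℝ) (n + 1)) (P0 ∩ Iic a) := by
          rw [Set.disjoint_left]
          rintro p ⟨_, hp2⟩ ⟨_, hp3⟩
          have := hp2.1
          have h5 : p ≤ a := hp3
          rw [ha] at h5
          linarith
        have hf1 : (P0 ∩ Ico (n : ℝ) (n + 1)).Finite :=
          (hsys.fin b).subset fun p hp => ⟨hp.1, hp.2.2.le⟩
        rw [cnt, cnt, ← Set.ncard_union_eq hdis hf1 (hsys.fin a)]
        apply Set.ncard_le_ncard _ (hsys.fin b)
        rintro p (⟨hp, hp2⟩ | ⟨hp, hp2⟩)
        · exact ⟨hp, hp2.2.le⟩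
        · exact ⟨hp, (Set.mem_Iic.1 hp2).trans hab⟩
      have h5 : ((P0 ∩ Ico (n : ℝ) (n + 1)).ncard : ℝ) + cnt P0 a ≤ cnt P0 b := by exact_mod_cast h4
      rw [abs_le] at h1 h2
      have h6 : ((P0 ∩ Ico (n : ℝ) (n + 1)).ncard : ℝ) < 3 := by
        have : (b - a) / 10 = 3 / 20 := by rw [ha, hb]; ring
        linarith
      have h7 : (P0 ∩ Ico (n : ℝ) (n + 1)).ncard < 3 := by exact_mod_cast h6
      exact le_of_lt h7
  · -- members in long intervals
    have hx0 : 0 < x := (Real.exp_pos 10).trans_le hx
    have h10 : 10 ≤ Real.log x := (Real.le_log_iff_exp_le hx0).2 hx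
    set y := x + Real.log x ^ 2 / 2 with hy
    have hxy : x < y := by rw [hy]; nlinarith
    have hy0 : 0 < y := by linarith
    have hlogxy : Real.log x ≤ Real.log y := Real.log_le_log hx0 hxy.le
    have hlogy : Real.log y ≤ 2 * Real.log x := by
      have h1 : Real.log x ≤ x := (Real.log_le_sub_one_of_pos hx0).trans (by linarith)
      have h2 : y ≤ x ^ 2 := by
        rw [hy]
        have hx10 : 10 ≤ x := by linarith
        nlinarith
      have h3 := Real.log_le_log hy0 h2
      rw [Real.log_pow] at h3
      push_cast at h3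
      exact h3
    have h1 := hcG x hx0
    have h2 := hcG y hy0
    have h3 : G y - G x = ∫ v in Real.log x..Real.log y, BC.f v := by
      simp only [hG]
      rw [max_eq_right h10, max_eq_right (h10.trans hlogxy), BC.f_add 10 (Real.log x) (Real.log y)]
      ring
    have h4 := (BC.f_bounds (a := Real.log x) (b := Real.log y) (by linarith) hlogxy).1
    rw [Real.exp_log hx0, Real.exp_log hy0] at h4
    have h5 : 5 / 2 ≤ (y - x) / Real.log y := by
      rw [le_div_iff₀ (by linarith)]
      have : y - x = Real.log x ^ 2 / 2 := by rw [hy]; ring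
      rw [this]
      nlinarith
    have h6 : cnt P0 x < cnt P0 y := by
      rw [abs_le] at h1 h2
      have : (cnt P0 x : ℝ) < cnt P0 y := by linarith
      exact_mod_cast this
    by_contra hcon
    push Not at hcon
    have h7 : P0 ∩ Iic y ⊆ P0 ∩ Iic x := by
      rintro p ⟨hp, hpy⟩
      refine ⟨hp, ?_⟩
      by_contra hpx
      have h8 := hcon p hp (not_le.1 hpx)
      have h9 : p ≤ y := hpy
      rw [hy] at h9
      nlinarith
    have := Set.ncard_le_ncard h7 (hsys.fin x)
    rw [cnt, cnt] at h6
    omega

end Pool.Agent.H41.SZ
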