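import Pool.Agent.H41.SZ.Num

/-! SZ-BD: one modification, finitely many modifications. -/

set_option autoImplicit false

open MeasureTheory Filter Topology Set

namespace Pool.Agent.H41.SZ

theorem IsSys.mono {P P' : Set ℝ} (h : IsSys P) (hs : P' ⊆ P) : IsSys P' :=
  ⟨fun p hp => h.one_lt p (hs hp), fun x => (h.fin x).subset (Set.inter_subset_inter_left _ hs)⟩

theorem IsSys.insert {P : Set ℝ} (h : IsSys P) {a : ℝ} (ha : 1 < a) : IsSys (insert a P) := by
  refine ⟨?_, fun x => ?_⟩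
  · rintro p (rfl | hp)
    · exact ha
    · exact h.one_lt p hp
  · refine ((h.fin x).insert a).subset ?_
    rintro p ⟨rfl | hp, hx⟩
    · exact Or.inl rfl
    · exact Or.inr ⟨hp, hx⟩

theorem bd_erase {P : Set ℝ} (h : IsSys P) {c A σ : ℝ} (hσ : 0 < σ) (hσ1 : σ < 1) (hb : Bd P c A σ) {r : ℝ} (hr : r ∈ P) :
    Bd (P \ {r}) (c * (1 - r⁻¹)) (A * (1 + r ^ (-σ))) σ := by
  obtain ⟨hc, hcA, hb⟩ := hb
  have hr1 := h.one_lt r hr
  have hr0 : 0 < r := by linarith
  have hri : r⁻¹ < 1 := inv_lt_one_of_one_lt₀ hr1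
  have hri0 : 0 < r⁻¹ := inv_pos.2 hr0
  have hrs : 0 < r ^ (-σ) := Real.rpow_pos_of_pos hr0 _
  have hA : 0 < A := by linarith
  refine ⟨by nlinarith, by nlinarith, fun x hx => ?_⟩
  have e := num_erase h hr x
  have h1 := hb x hx
  have h2 := hb (x / r) (by positivity)
  have e2 : ((num (P \ {r}) x : ℕ) : ℝ) = (num P x : ℝ) - num P (x / r) := by
    rw [e]; push_cast; ring
  have e3 : (x / r) ^ σ = x ^ σ * r ^ (-σ) := by
    rw [Real.div_rpow hx.le hr0.le, Real.rpow_neg hr0.le]; rfl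
  rw [e3] at h2
  rw [e2]
  have e4 : (num P x : ℝ) - num P (x / r) - c * (1 - r⁻¹) * x =
      ((num P x : ℝ) - c * x) - ((num P (x / r) : ℝ) - c * (x / r)) := by
    field_simp; ring
  rw [e4]
  refine (abs_sub _ _).trans ?_
  have e5 : A * (1 + r ^ (-σ)) * x ^ σ = A * x ^ σ + A * (x ^ σ * r ^ (-σ)) := by ring
  rw [e5]
  exact add_le_add h1 h2

theorem bd_insert {P : Set ℝ} (h : IsSys P) {c A σ : ℝ} (hσ : 0 < σ) (hσ1 : σ < 1) (hb : Bd P c A σ) {a : ℝ} (ha : 1 < a)
    (haP : a ∉ P) : Bd (insert a P) (c * (1 - a⁻¹)⁻¹) (A * (1 - a ^ (-σ))⁻¹) σ := by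
  obtain ⟨hc, hcA, hb⟩ := hb
  have h' := h.insert ha
  have ha0 : 0 < a := by linarith
  have hai : a⁻¹ < 1 := inv_lt_one_of_one_lt₀ ha
  have hai0 : 0 < a⁻¹ := inv_pos.2 ha0
  have has : 0 < a ^ (-σ) := Real.rpow_pos_of_pos ha0 _
  have has1 : a ^ (-σ) < 1 := Real.rpow_lt_one_of_one_lt_of_neg ha (by linarith)
  have has2 : a⁻¹ ≤ a ^ (-σ) := by
    rw [← Real.rpow_neg_one]
    exact Real.rpow_le_rpow_of_exponent_le ha.le (by linarith)
  have hA : 0 < A := by linarith
  have d1 : 0 < 1 - a⁻¹ := by linarith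
  have d2 : 0 < 1 - a ^ (-σ) := by linarith
  have hcA' : c * (1 - a⁻¹)⁻¹ ≤ A * (1 - a ^ (-σ))⁻¹ := by
    apply mul_le_mul hcA _ (by positivity) hA.le
    exact inv_anti₀ d2 (by linarith)
  refine ⟨by positivity, hcA', ?_⟩
  have key : ∀ k : ℕ, ∀ x : ℝ, 0 < x → x < a ^ k →
      |(num (insert a P) x : ℝ) - c * (1 - a⁻¹)⁻¹ * x| ≤ A * (1 - a ^ (-σ))⁻¹ * x ^ σ := by
    intro k
    induction k with
    | zero =>
      intro x hx hxk
      rw [pow_zero] at hxk
      rw [num_small h' hxk, Nat.cast_zero, zero_sub, abs_neg, abs_of_nonneg (by positivity)]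
      have : x ≤ x ^ σ := by
        have := Real.rpow_le_rpow_of_exponent_ge hx hxk.le hσ1.le
        rwa [Real.rpow_one] at this
      exact mul_le_mul hcA' this hx.le (by positivity)
    | succ k ih =>
      intro x hx hxk
      have h1 := hb x hx
      have h2 := ih (x / a) (by positivity) (by rw [div_lt_iff₀ ha0, ← pow_succ]; exact hxk)
      have e := num_erase h' (Set.mem_insert a P) x
      rw [Set.insert_sdiff_self_of_notMem haP] at e
      have e2 : ((num (insert a P) x : ℕ) : ℝ) = (num P x : ℝ) + num (insert a P) (x / a) := by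
        rw [e]; push_cast; ring
      have e3 : (x / a) ^ σ = x ^ σ * a ^ (-σ) := by
        rw [Real.div_rpow hx.le ha0.le, Real.rpow_neg ha0.le]; rfl
      rw [e3] at h2
      rw [e2]
      have e4 : (num P x : ℝ) + num (insert a P) (x / a) - c * (1 - a⁻¹)⁻¹ * x =
          ((num P x : ℝ) - c * x) + ((num (insert a P) (x / a) : ℝ) - c * (1 - a⁻¹)⁻¹ * (x / a)) := by
        have : c * (1 - a⁻¹)⁻¹ * x = c * x + c * (1 - a⁻¹)⁻¹ * (x / a) := by
          rw [div_eq_mul_inv]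
          have hy : (1 - a⁻¹)⁻¹ * (1 - a⁻¹) = 1 := inv_mul_cancel₀ d1.ne'
          linear_combination c * x * hy
        rw [this]; ring
      rw [e4]
      refine (abs_add_le _ _).trans ?_
      have e5 : A * (1 - a ^ (-σ))⁻¹ * x ^ σ =
          A * x ^ σ + A * (1 - a ^ (-σ))⁻¹ * (x ^ σ * a ^ (-σ)) := by
        field_simp
        ring
      rw [e5]
      exact add_le_add h1 h2
  intro x hx
  obtain ⟨k, hk⟩ := pow_unbounded_of_one_lt x ha
  exact key k x hx hk

/-- finitely many modifications (induction on the two finite sets) -/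
theorem bd_fin {P : Set ℝ} (h : IsSys P) {c A σ : ℝ} (hσ : 0 < σ) (hσ1 : σ < 1) (hb : Bd P c A σ) (R T : Finset ℝ)
    (hR : ∀ r ∈ R, r ∈ P) (hT : ∀ a ∈ T, 1 < a ∧ a ∉ P) :
    Bd ((P \ ↑R) ∪ ↑T) (c * (∏ r ∈ R, (1 - r⁻¹)) * ∏ a ∈ T, (1 - a⁻¹)⁻¹)
      (A * (∏ r ∈ R, (1 + r ^ (-σ))) * ∏ a ∈ T, (1 - a ^ (-σ))⁻¹) σ := by
  classical
  have hstep1 : Bd (P \ ↑R) (c * (∏ r ∈ R, (1 - r⁻¹))) (A * (∏ r ∈ R, (1 + r ^ (-σ)))) σ := by
    induction R using Finset.induction_on with
    | empty => simpa using hb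
    | insert r R hr ih =>
      have h1 := ih (fun q hq => hR q (Finset.mem_insert_of_mem hq))
      have hrP := hR r (Finset.mem_insert_self r R)
      have h2 := bd_erase (h.mono Set.sdiff_subset) hσ hσ1 h1 (r := r) ⟨hrP, fun h0 => hr (Finset.mem_coe.1 h0)⟩
      have e : (P \ (↑R : Set ℝ)) \ {r} = P \ (↑(insert r R) : Set ℝ) := by
        rw [Finset.coe_insert, Set.sdiff_sdiff, Set.union_comm, ← Set.insert_eq]
      rw [e] at h2
      rw [Finset.prod_insert hr, Finset.prod_insert hr]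
      convert h2 using 1 <;> ring
  have hsys : ∀ S : Finset ℝ, (∀ a ∈ S, 1 < a) → IsSys ((P \ (↑R : Set ℝ)) ∪ ↑S) := by
    intro S hS
    induction S using Finset.induction_on with
    | empty =>
      rw [Finset.coe_empty, Set.union_empty]
      exact h.mono Set.sdiff_subset
    | insert a S _ ih =>
      rw [Finset.coe_insert, Set.union_insert]
      exact (ih fun b hb => hS b (Finset.mem_insert_of_mem hb)).insert (hS a (Finset.mem_insert_self a S))
  induction T using Finset.induction_on with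
  | empty => simpa using hstep1
  | insert a T ha ih =>
    have h1 := ih (fun q hq => hT q (Finset.mem_insert_of_mem hq))
    obtain ⟨ha1, haP⟩ := hT a (Finset.mem_insert_self a T)
    have hnot : a ∉ (P \ (↑R : Set ℝ)) ∪ ↑T := by
      rintro (h0 | h0)
      · exact haP h0.1
      · exact ha (Finset.mem_coe.1 h0)
    have h2 := bd_insert (hsys T fun b hb => (hT b (Finset.mem_insert_of_mem hb)).1) hσ hσ1 h1 ha1 hnot
    rw [Finset.coe_insert, Set.union_insert, Finset.prod_insert ha, Finset.prod_insert ha]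
    convert h2 using 1 <;> ring

end Pool.Agent.H41.SZ
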