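import Pool.Agent.H41.SZ.Defs

/-! # Project SZ: thin modifications preserve the prime number theorem -/

set_option autoImplicit false

open MeasureTheory Filter Topology Set

namespace Pool.Agent.H41.SZ

lemma few_count {D : Set ℝ} (hD : ∀ d ∈ D, 1 < d) (hf : Few D) {σ : ℝ} (hσ : 1 / 2 < σ) {x : ℝ} (hx : 1 ≤ x)
    (hfin : (D ∩ Iic x).Finite) : ((D ∩ Iic x).ncard : ℝ) ≤ (∑' d : D, (d : ℝ) ^ (-σ)) * x ^ σ := by
  classical
  have hsum := hf σ hσ
  set s : Finset D := hfin.toFinset.subtype (fun d => d ∈ D) with hs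
  have hcard : s.card = (D ∩ Iic x).ncard := by
    rw [Set.ncard_eq_toFinset_card _ hfin, hs, Finset.card_subtype]
    congr 1
    refine Finset.filter_true_of_mem fun d hd => ?_
    exact ((Set.Finite.mem_toFinset _).1 hd).1
  have h1 : ∑ d ∈ s, (d : ℝ) ^ (-σ) ≤ ∑' d : D, (d : ℝ) ^ (-σ) :=
    hsum.sum_le_tsum s fun d _ => Real.rpow_nonneg (by linarith [hD d d.2]) _
  have h2 : (s.card : ℝ) * x ^ (-σ) ≤ ∑ d ∈ s, (d : ℝ) ^ (-σ) := by
    rw [← nsmul_eq_mul]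
    refine Finset.card_nsmul_le_sum _ _ _ fun d hd => ?_
    rw [hs, Finset.mem_subtype, Set.Finite.mem_toFinset] at hd
    exact Real.rpow_le_rpow_of_nonpos (by linarith [hD d d.2]) hd.2 (by linarith)
  have hx0 : 0 < x := by linarith
  have h3 : x ^ (-σ) * x ^ σ = 1 := by
    rw [← Real.rpow_add hx0]; simp
  rw [← hcard]
  calc (s.card : ℝ) = (s.card * x ^ (-σ)) * x ^ σ := by rw [mul_assoc, h3, mul_one]
    _ ≤ _ := mul_le_mul_of_nonneg_right (h2.trans h1) (by positivity)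

theorem cnt_modify {P P' : Set ℝ} (h : IsSys P) (h' : IsSys P') (hc : CntOK P) (hf : Few (symmDiff P P')) : CntOK P' := by
  intro ε hε
  obtain ⟨A, hA⟩ := hc ε hε
  set S := ∑' d : (symmDiff P P' : Set ℝ), (d : ℝ) ^ (-(1 / 2 + ε)) with hS
  refine ⟨A + S, fun x hx => ?_⟩
  have hD1 : ∀ d ∈ symmDiff P P', 1 < d := by
    rintro d (hd | hd)
    · exact h.one_lt d hd.1
    · exact h'.one_lt d hd.1
  have hDf : (symmDiff P P' ∩ Iic x).Finite := by
    refine ((h.fin x).union (h'.fin x)).subset ?_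
    rintro d ⟨hd | hd, hdx⟩
    · exact Or.inl ⟨hd.1, hdx⟩
    · exact Or.inr ⟨hd.1, hdx⟩
  have h1 := few_count hD1 hf (σ := 1 / 2 + ε) (by linarith) (by linarith : 1 ≤ x) hDf
  have h2 : (cnt P' x : ℝ) ≤ cnt P x + (symmDiff P P' ∩ Iic x).ncard := by
    have : cnt P' x ≤ cnt P x + (symmDiff P P' ∩ Iic x).ncard := by
      unfold cnt
      refine (Set.ncard_le_ncard ?_ ((h.fin x).union hDf)).trans (Set.ncard_union_le _ _)
      rintro d ⟨hd, hdx⟩
      by_cases hdP : d ∈ P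
      · exact Or.inl ⟨hdP, hdx⟩
      · exact Or.inr ⟨Or.inr ⟨hd, hdP⟩, hdx⟩
    exact_mod_cast this
  have h3 : (cnt P x : ℝ) ≤ cnt P' x + (symmDiff P P' ∩ Iic x).ncard := by
    have : cnt P x ≤ cnt P' x + (symmDiff P P' ∩ Iic x).ncard := by
      unfold cnt
      refine (Set.ncard_le_ncard ?_ ((h'.fin x).union hDf)).trans (Set.ncard_union_le _ _)
      rintro d ⟨hd, hdx⟩
      by_cases hdP : d ∈ P'
      · exact Or.inl ⟨hdP, hdx⟩
      · exact Or.inr ⟨Or.inl ⟨hd, hdP⟩, hdx⟩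
    exact_mod_cast this
  have h4 := abs_le.1 (hA x hx)
  rw [abs_le]
  constructor
  · have : (A + S) * x ^ (1 / 2 + ε) = A * x ^ (1 / 2 + ε) + S * x ^ (1 / 2 + ε) := by ring
    linarith [h4.1]
  · have : (A + S) * x ^ (1 / 2 + ε) = A * x ^ (1 / 2 + ε) + S * x ^ (1 / 2 + ε) := by ring
    linarith [h4.2]

end Pool.Agent.H41.SZ
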