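import Pool.Agent.H41.PM.Gen

/-! # Project SZ: Schinzel's intervals `(x, x + (log x)^2)` and generalised primes. Definitions. -/

set_option autoImplicit false

open MeasureTheory Filter Topology Set

namespace Pool.Agent.H41.SZ

/-- a system of generalised primes: real numbers larger than one, finitely many below every bound -/
structure IsSys (P : Set ℝ) : Prop where
  one_lt : ∀ p ∈ P, 1 < p
  fin : ∀ x : ℝ, (P ∩ Iic x).Finite

/-- the number of generalised primes `≤ x` -/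
noncomputable def cnt (P : Set ℝ) (x : ℝ) : ℕ := (P ∩ Iic x).ncard

/-- the generalised integers `≤ x` (as functions of exponents) -/
def ints (P : Set ℝ) (x : ℝ) : Set (ℝ →₀ ℕ) := {a | (∀ p, a p ≠ 0 → p ∈ P) ∧ (a.prod fun p k => p ^ k) ≤ x}

/-- the number of generalised integers `≤ x` -/
noncomputable def num (P : Set ℝ) (x : ℝ) : ℕ := (ints P x).ncard

/-- the generalised integers are well distributed -/
def NumOK (P : Set ℝ) : Prop := ∃ c : ℝ, 0 < c ∧ ∀ ε : ℝ, 0 < ε → ∃ A : ℝ, ∀ x : ℝ, 1 ≤ x →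
  |(num P x : ℝ) - c * x| ≤ A * x ^ (1 / 2 + ε)

/-- the prime number theorem -/
def CntOK (P : Set ℝ) : Prop := ∀ ε : ℝ, 0 < ε → ∃ A : ℝ, ∀ x : ℝ, 2 ≤ x →
  |(cnt P x : ℝ) - ∫ t in (2 : ℝ)..x, 1 / Real.log t| ≤ A * x ^ (1 / 2 + ε)

/-- a bound for the number of generalised integers, for one exponent `σ` -/
def Bd (P : Set ℝ) (c A σ : ℝ) : Prop := 0 < c ∧ c ≤ A ∧ ∀ x : ℝ, 0 < x → |(num P x : ℝ) - c * x| ≤ A * x ^ σ

/-- `D` is a thin set of real numbers -/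
def Few (D : Set ℝ) : Prop := ∀ σ : ℝ, 1 / 2 < σ → Summable fun d : D => (d : ℝ) ^ (-σ)

/-- `∑ n^(-σ)` over the integer parts of the members of `E` converges for all `σ > 1/2` -/
def Sparse (E : Set ℝ) : Prop :=
  ∀ σ : ℝ, 1 / 2 < σ → Summable fun n : ((fun x : ℝ => ⌊x⌋₊) '' E : Set ℕ) => ((n : ℕ) : ℝ) ^ (-σ)

/-- the union of the zones `(x, x + l)`, `(x, l) ∈ F` -/
def Zn (F : Set (ℝ × ℝ)) : Set ℝ := ⋃ q ∈ F, Ioo q.1 (q.1 + q.2)

/-- an admissible family of zones -/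
structure Fam (F : Set (ℝ × ℝ)) : Prop where
  pos : ∀ q ∈ F, 8 < q.1
  one_le : ∀ q ∈ F, 1 ≤ q.2
  le : ∀ q ∈ F, q.2 ≤ Real.log q.1 ^ 2
  sparse : Sparse (Prod.fst '' F)

/-- the zones `(x, x + (log x)^2)`, `x ∈ E` -/
def FE (E : Set ℝ) : Set (ℝ × ℝ) := {q | q.1 ∈ E ∧ q.2 = Real.log q.1 ^ 2}

/-- the zones `(4^k, 4^k + (log 4^k)^2 - 1)`, `k ≥ k0` -/
def FY (k0 : ℕ) : Set (ℝ × ℝ) := {q | ∃ k : ℕ, k0 ≤ k ∧ q.1 = 4 ^ k ∧ q.2 = Real.log (4 ^ k) ^ 2 - 1}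

/-- the exceptions `x > y` of Schinzel's conjecture -/
def Exc (y : ℝ) (P : Set ℝ) : Set ℝ := {x | y < x ∧ ∀ p ∈ P, ¬ (x < p ∧ p < x + Real.log x ^ 2)}

/-- `E` is a relatively closed subset of `(y, ∞)` which contains `[x, z]` if `x < z < x + (log x)^2` are in `E` -/
structure Adm (y : ℝ) (E : Set ℝ) : Prop where
  gt : ∀ x ∈ E, y < x
  closed : ∀ x ∈ closure E, y < x → x ∈ E
  fill : ∀ x ∈ E, ∀ z ∈ E, x < z → z < x + Real.log x ^ 2 → Icc x z ⊆ E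

/-- `E` contains no interval of length `δ (log x)^2` which begins at a large `x ∈ E` -/
def Thin (E : Set ℝ) : Prop := ∀ δ : ℝ, 0 < δ → ∃ X : ℝ, ∀ x ∈ E, X ≤ x → ∃ w, x < w ∧ w < x + δ * Real.log x ^ 2 ∧ w ∉ E

/-- upper half of Cramér's conjecture -/
def CrU (P : Set ℝ) : Prop := ∀ δ : ℝ, 0 < δ → ∀ᶠ x : ℝ in atTop, ∃ p ∈ P, x < p ∧ p < x + (1 + δ) * Real.log x ^ 2

/-- lower half of Cramér's conjecture -/
def CrL (P : Set ℝ) : Prop := ∀ δ : ℝ, 0 < δ → ∃ᶠ x : ℝ in atTop, ∀ p ∈ P, ¬ (x < p ∧ p < x + (1 - δ) * Real.log x ^ 2)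

/-- the modified system: `Q` up to `y`, and beyond `y` the set `B` without `Z`, with the end points of `Z` -/
def mk (Q B Z : Set ℝ) (y : ℝ) : Set ℝ := Q ∪ (((B \ Z) ∪ frontier Z) ∩ Ioi y)

end Pool.Agent.H41.SZ
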