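import Pool.Agent.H41.SZ.Defs

/-! # Project SZ: the exceptions of the modified system -/

set_option autoImplicit false

open MeasureTheory Filter Topology Set

namespace Pool.Agent.H41.SZ

theorem exc_mk {Q B Z : Set ℝ} {y : ℝ} (hZ : IsOpen Z) (hQ : ∀ q ∈ Q, q ≤ y)
    (hB : ∀ x, y < x → ∃ p ∈ B, x < p ∧ p < x + Real.log x ^ 2) :
    Exc y (mk Q B Z y) = {x | y < x ∧ Ioo x (x + Real.log x ^ 2) ⊆ Z} := by
  ext x
  constructor
  · rintro ⟨hyx, hx⟩
    refine ⟨hyx, ?_⟩
    obtain ⟨p, hp, hxp, hpx⟩ := hB x hyx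
    have hpZ : p ∈ Z := by
      by_contra hpZ
      exact hx p (Or.inr ⟨Or.inl ⟨hp, hpZ⟩, hyx.trans hxp⟩) ⟨hxp, hpx⟩
    by_contra hcon
    have h1 : (Ioo x (x + Real.log x ^ 2) ∩ Z).Nonempty := ⟨p, ⟨hxp, hpx⟩, hpZ⟩
    have h2 : (Ioo x (x + Real.log x ^ 2) ∩ Zᶜ).Nonempty := by
      rw [not_subset] at hcon
      obtain ⟨a, ha, ha2⟩ := hcon
      exact ⟨a, ha, ha2⟩
    have h3 : (Ioo x (x + Real.log x ^ 2) ∩ frontier Z).Nonempty := by
      by_contra hne
      rw [not_nonempty_iff_eq_empty] at hne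
      have h4 := isPreconnected_Ioo.subset_or_subset (u := Z) (v := (closure Z)ᶜ) (s := Ioo x (x + Real.log x ^ 2)) hZ
        isClosed_closure.isOpen_compl (disjoint_left.2 fun a ha hb => hb (subset_closure ha)) (by
          intro a ha
          by_cases hc : a ∈ closure Z
          · left
            by_contra haZ
            have : a ∈ Ioo x (x + Real.log x ^ 2) ∩ frontier Z := ⟨ha, by rw [hZ.frontier_eq]; exact ⟨hc, haZ⟩⟩
            rw [hne] at this
            exact this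
          · right; exact hc)
      rcases h4 with h4 | h4
      · exact hcon h4
      · exact h4 ⟨hxp, hpx⟩ (subset_closure hpZ)
    obtain ⟨t, ht, htf⟩ := h3
    exact hx t (Or.inr ⟨Or.inr htf, hyx.trans ht.1⟩) ht
  · rintro ⟨hyx, hx⟩
    refine ⟨hyx, ?_⟩
    rintro p (hp | ⟨hp | hp, -⟩) h
    · linarith [hQ p hp, h.1]
    · exact hp.2 (hx h)
    · rw [hZ.frontier_eq] at hp
      exact hp.2 (hx h)

end Pool.Agent.H41.SZ
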