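import Pool.Agent.H41.SZ.Defs

/-! # Project SZ: the points `x` with `(x, x + (log x)^2)` inside the zones -/

set_option autoImplicit false

open MeasureTheory Filter Topology Set

namespace Pool.Agent.H41.SZ

lemma lsq_mono {a b : ℝ} (ha : 1 ≤ a) (hab : a ≤ b) : Real.log a ^ 2 ≤ Real.log b ^ 2 :=
  pow_le_pow_left₀ (Real.log_nonneg ha) (Real.log_le_log (by linarith) hab) 2

theorem exc_E {y : ℝ} (hy : 8 ≤ y) {E : Set ℝ} (h : Adm y E) :
    {x | y < x ∧ Ioo x (x + Real.log x ^ 2) ⊆ Zn (FE E)} = E := by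
  ext x
  constructor
  · rintro ⟨hyx, hx⟩
    by_contra hxE
    have hx1 : 1 < x := by linarith
    have hL : 0 < Real.log x ^ 2 := by have := Real.log_pos hx1; positivity
    have hxc : x ∉ closure E := fun hc => hxE (h.closed x hc hyx)
    obtain ⟨η, hη, hball⟩ := Metric.isOpen_iff.1 isClosed_closure.isOpen_compl x hxc
    have hnoE : ∀ w ∈ E, w < x + η → w < x := by
      intro w hw hwx
      by_contra hcon
      have : w ∈ Metric.ball x η := by
        rw [Metric.mem_ball, Real.dist_eq, abs_lt]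
        constructor <;> linarith [not_lt.1 hcon]
      exact hball this (subset_closure hw)
    -- points just right of `x`
    have hmem : ∀ z, x < z → z < x + Real.log x ^ 2 → ∃ w ∈ E, w < z ∧ z < w + Real.log w ^ 2 := by
      intro z h1 h2
      obtain ⟨q, hq, hzq⟩ := mem_iUnion₂.1 (hx ⟨h1, h2⟩)
      exact ⟨q.1, hq.1, hzq.1, by rw [← hq.2]; exact hzq.2⟩
    have hne : (E ∩ Iic x).Nonempty := by
      obtain ⟨w, hw, h1, h2⟩ := hmem (x + min (η / 2) (Real.log x ^ 2 / 2)) (by
        have : 0 < min (η / 2) (Real.log x ^ 2 / 2) := by positivity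
        linarith) (by
        have := min_le_right (η / 2) (Real.log x ^ 2 / 2)
        linarith)
      have := min_le_left (η / 2) (Real.log x ^ 2 / 2)
      exact ⟨w, hw, (hnoE w hw (by linarith)).le⟩
    have hbdd : BddAbove (E ∩ Iic x) := ⟨x, fun w hw => hw.2⟩
    set u := sSup (E ∩ Iic x) with hu
    have hucl : u ∈ closure (E ∩ Iic x) := csSup_mem_closure hne hbdd
    obtain ⟨w0, hw0⟩ := hne
    have hw0u : w0 ≤ u := le_csSup hbdd hw0
    have hyu : y < u := (h.gt w0 hw0.1).trans_le hw0u
    have huE : u ∈ E := h.closed u (closure_mono inter_subset_left hucl) hyu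
    have hux : u < x := by
      have h1 : u ≤ x := csSup_le ⟨w0, hw0⟩ fun w hw => hw.2
      exact lt_of_le_of_ne h1 fun h2 => hxE (h2 ▸ huE)
    have hmax : ∀ w ∈ E, w ≤ x → w ≤ u := fun w hw hwx => le_csSup hbdd ⟨hw, hwx⟩
    -- `x < u + (log u)^2`
    have hxs : x < u + Real.log u ^ 2 := by
      by_contra hcon
      have hcon' := not_lt.1 hcon
      obtain ⟨w, hw, h1, h2⟩ := hmem (x + min (η / 2) (Real.log x ^ 2 / 2)) (by
        have : 0 < min (η / 2) (Real.log x ^ 2 / 2) := by positivity
        linarith) (by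
        have := min_le_right (η / 2) (Real.log x ^ 2 / 2)
        linarith)
      have h3 := min_le_left (η / 2) (Real.log x ^ 2 / 2)
      have h4 := hnoE w hw (by linarith)
      have h5 := hmax w hw h4.le
      have h6 := lsq_mono (by linarith [h.gt w hw]) h5
      have h7 : 0 < min (η / 2) (Real.log x ^ 2 / 2) := by positivity
      linarith
    obtain ⟨w, hw, h1, h2⟩ := hmem (u + Real.log u ^ 2) hxs (by
      have := lsq_mono (by linarith) hux.le
      linarith)
    have huw : u < w := by
      by_contra hcon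
      have := lsq_mono (by linarith [h.gt w hw]) (not_lt.1 hcon)
      linarith [not_lt.1 hcon]
    have hxw : x < w := by
      by_contra hcon
      exact absurd (hmax w hw (not_lt.1 hcon)) (not_le.2 huw)
    exact hxE (h.fill u huE w hw huw h1 ⟨hux.le, hxw.le⟩)
  · intro hx
    refine ⟨h.gt x hx, fun z hz => mem_iUnion₂.2 ⟨(x, Real.log x ^ 2), ⟨hx, rfl⟩, hz⟩⟩

end Pool.Agent.H41.SZ
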