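import Pool.Agent.H41.SZ.Defs

/-! # Project SZ: the families of zones are admissible -/

set_option autoImplicit false

open MeasureTheory Filter Topology Set

namespace Pool.Agent.H41.SZ

lemma lsq_gt {x : ℝ} (hx : 8 < x) : 4 ≤ Real.log x ^ 2 := by
  have h1 : 2 ≤ Real.log x := by
    have h8 : Real.log 8 ≤ Real.log x := Real.log_le_log (by norm_num) hx.le
    have : Real.log 8 = 3 * Real.log 2 := by
      rw [show (8:ℝ) = 2 ^ 3 by norm_num, Real.log_pow]; norm_num
    have := Real.log_two_gt_d9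
    linarith
  nlinarith

lemma summ_mono {A A' : Set ℕ} {f : ℕ → ℝ} (hA : A' ⊆ A) (h : Summable fun n : A => f n) :
    Summable fun n : A' => f n :=
  h.comp_injective (Set.inclusion_injective hA)

lemma summ_union {A A' : Set ℕ} {f : ℕ → ℝ} (hf : ∀ n, 0 ≤ f n) (h : Summable fun n : A => f n)
    (h' : Summable fun n : A' => f n) : Summable fun n : (A ∪ A' : Set ℕ) => f n := by
  have h1 := summable_subtype_iff_indicator.1 h
  have h2 := summable_subtype_iff_indicator.1 h'
  refine summable_subtype_iff_indicator.2 (Summable.of_nonneg_of_le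
    (fun n => indicator_nonneg (fun n _ => hf n) n) (fun n => ?_) (h1.add h2))
  have ha : 0 ≤ indicator A f n := indicator_nonneg (fun n _ => hf n) n
  have hb : 0 ≤ indicator A' f n := indicator_nonneg (fun n _ => hf n) n
  by_cases hnA : n ∈ A
  · rw [indicator_of_mem (show n ∈ A ∪ A' from Or.inl hnA)]
    rw [indicator_of_mem hnA] at ha ⊢
    linarith
  · by_cases hnB : n ∈ A'
    · rw [indicator_of_mem (show n ∈ A ∪ A' from Or.inr hnB)]
      rw [indicator_of_mem hnB] at hb ⊢
      linarith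
    · rw [indicator_of_notMem (show n ∉ A ∪ A' from fun h => h.elim hnA hnB)]
      exact add_nonneg ha hb

lemma sparse_union {E E' : Set ℝ} (h : Sparse E) (h' : Sparse E') : Sparse (E ∪ E') := by
  intro σ hσ
  have h1 := summ_union (f := fun n : ℕ => (n : ℝ) ^ (-σ)) (fun n => Real.rpow_nonneg (Nat.cast_nonneg n) _) (h σ hσ) (h' σ hσ)
  rw [← image_union] at h1
  exact h1

theorem fam_E {E : Set ℝ} (hE : ∀ x ∈ E, 8 < x) (hs : Sparse E) : Fam (FE E) := by
  refine ⟨fun q hq => hE _ hq.1, fun q hq => ?_, fun q hq => hq.2.le, ?_⟩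
  · rw [hq.2]; linarith [lsq_gt (hE _ hq.1)]
  · have : Prod.fst '' FE E = E := by
      ext x
      constructor
      · rintro ⟨q, hq, rfl⟩; exact hq.1
      · intro hx; exact ⟨(x, Real.log x ^ 2), ⟨hx, rfl⟩, rfl⟩
    rw [this]; exact hs

theorem fam_EY {E : Set ℝ} (hE : ∀ x ∈ E, 8 < x) (hs : Sparse E) {k0 : ℕ} (hk : 2 ≤ k0) : Fam (FE E ∪ FY k0) := by
  have hF := fam_E hE hs
  have h16 : ∀ k : ℕ, k0 ≤ k → (8:ℝ) < 4 ^ k := by
    intro k hkk
    have h3 : (4:ℝ) ^ 2 ≤ 4 ^ k := pow_le_pow_right₀ (by norm_num) (hk.trans hkk)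
    norm_num at h3
    linarith
  refine ⟨?_, ?_, ?_, ?_⟩
  · rintro q (hq | ⟨k, hkk, h1, h2⟩)
    · exact hF.pos q hq
    · rw [h1]; exact h16 k hkk
  · rintro q (hq | ⟨k, hkk, h1, h2⟩)
    · exact hF.one_le q hq
    · rw [h2]; linarith [lsq_gt (h16 k hkk)]
  · rintro q (hq | ⟨k, hkk, h1, h2⟩)
    · exact hF.le q hq
    · rw [h2, h1]; linarith
  · rw [image_union]
    refine sparse_union hF.sparse ?_
    intro σ hσ
    -- the image is contained in the set of the powers of four
    have h1 : (fun x : ℝ => ⌊x⌋₊) '' (Prod.fst '' FY k0) ⊆ Set.range fun k : ℕ => 4 ^ k := by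
      rintro n ⟨x, ⟨q, ⟨k, hkk, h1, h2⟩, rfl⟩, rfl⟩
      refine ⟨k, ?_⟩
      simp only [h1]
      have : ((4:ℝ) ^ k) = ((4 ^ k : ℕ) : ℝ) := by push_cast; rfl
      rw [this, Nat.floor_natCast]
    have h2 : Summable fun n : (Set.range fun k : ℕ => 4 ^ k : Set ℕ) => ((n : ℕ) : ℝ) ^ (-σ) := by
      have hinj : Function.Injective fun k : ℕ => 4 ^ k := Nat.pow_right_injective (by norm_num)
      rw [← (Equiv.ofInjective _ hinj).summable_iff]
      have h3 : ((fun n : (Set.range fun k : ℕ => 4 ^ k : Set ℕ) => ((n : ℕ) : ℝ) ^ (-σ)) ∘ (Equiv.ofInjective _ hinj)) =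
          fun k : ℕ => ((4:ℝ) ^ (-σ)) ^ k := by
        funext k
        simp only [Function.comp_apply, Equiv.ofInjective_apply]
        push_cast
        rw [← Real.rpow_natCast, ← Real.rpow_mul (by norm_num), ← Real.rpow_natCast, ← Real.rpow_mul (by norm_num)]
        congr 1
        ring
      rw [h3]
      refine summable_geometric_of_lt_one (by positivity) ?_
      exact Real.rpow_lt_one_of_one_lt_of_neg (by norm_num) (by linarith)
    exact summ_mono (f := fun n : ℕ => (n : ℝ) ^ (-σ)) h1 h2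

end Pool.Agent.H41.SZ
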