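import Pool.Agent.H41.SZ.Defs

/-! SZ-SUM: a set near a sparse set is thin. -/

set_option autoImplicit false

open MeasureTheory Filter Topology Set

namespace Pool.Agent.H41.SZ

/-- `(log (n + 1))² + 5` is at most a constant times `n^δ` -/
theorem log_sq_le {δ : ℝ} (hδ : 0 < δ) {n : ℝ} (hn : 1 ≤ n) :
    Real.log (n + 1) ^ 2 + 5 ≤ (4 * 2 ^ δ / δ ^ 2 + 5) * n ^ δ := by
  have h0 : 0 ≤ Real.log (n + 1) := Real.log_nonneg (by linarith)
  have h1 : Real.log (n + 1) ≤ (n + 1) ^ (δ / 2) / (δ / 2) :=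
    Real.log_le_rpow_div (by linarith) (by positivity)
  have h2 : Real.log (n + 1) ^ 2 ≤ ((n + 1) ^ (δ / 2) / (δ / 2)) ^ 2 := pow_le_pow_left₀ h0 h1 2
  have h3 : ((n + 1) ^ (δ / 2) / (δ / 2)) ^ 2 = 4 / δ ^ 2 * (n + 1) ^ δ := by
    rw [div_pow, ← Real.rpow_natCast ((n + 1) ^ (δ / 2)) 2, ← Real.rpow_mul (by linarith)]
    have : δ / 2 * ((2 : ℕ) : ℝ) = δ := by push_cast; ring
    rw [this]
    field_simp
    norm_num
  have h4 : (n + 1) ^ δ ≤ 2 ^ δ * n ^ δ := by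
    rw [← Real.mul_rpow (by norm_num) (by linarith)]
    exact Real.rpow_le_rpow (by linarith) (by linarith) hδ.le
  have h5 : 1 ≤ n ^ δ := Real.one_le_rpow hn hδ.le
  have h6 : 4 / δ ^ 2 * (n + 1) ^ δ ≤ 4 / δ ^ 2 * (2 ^ δ * n ^ δ) :=
    mul_le_mul_of_nonneg_left h4 (by positivity)
  rw [h3] at h2
  have e : (4 * 2 ^ δ / δ ^ 2 + 5) * n ^ δ = 4 / δ ^ 2 * (2 ^ δ * n ^ δ) + 5 * n ^ δ := by ring
  rw [e]
  linarith

/-- number of points of `D` in a bounded interval -/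
theorem card_window {D : Set ℝ} (M : ℕ)
    (hM : ∀ n : ℕ, (D ∩ Ico (n : ℝ) (n + 1)).Finite ∧ (D ∩ Ico (n : ℝ) (n + 1)).ncard ≤ M)
    (u : Finset ℝ) (hu : ∀ d ∈ u, d ∈ D) (n : ℕ) (hn : 1 ≤ n) (L : ℝ) (hL : 0 ≤ L)
    (h1 : ∀ d ∈ u, (n : ℝ) - 1 < d) (h2 : ∀ d ∈ u, d < n + 2 + L) : (u.card : ℝ) ≤ M * (L + 5) := by
  classical
  have key : u.card ≤ M * (u.image fun d => ⌊d⌋₊).card := by
    apply Finset.card_le_mul_card_image
    intro a _
    have hsub : ((u.filter fun d => ⌊d⌋₊ = a : Finset ℝ) : Set ℝ) ⊆ D ∩ Ico (a : ℝ) (a + 1) := by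
      intro d hd
      rw [Finset.mem_coe, Finset.mem_filter] at hd
      have hd0 : 0 ≤ d := by
        have := h1 d hd.1
        have h : (1 : ℝ) ≤ n := by exact_mod_cast hn
        linarith
      refine ⟨hu d hd.1, ?_, ?_⟩
      · rw [← hd.2]; exact Nat.floor_le hd0
      · rw [← hd.2]; exact Nat.lt_floor_add_one d
    have := Set.ncard_le_ncard hsub (hM a).1
    rw [Set.ncard_coe_finset] at this
    exact this.trans (hM a).2
  have himg : (u.image fun d => ⌊d⌋₊) ⊆ Finset.Icc (n - 1) ⌊(n : ℝ) + 2 + L⌋₊ := by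
    intro k hk
    obtain ⟨d, hd, rfl⟩ := Finset.mem_image.1 hk
    rw [Finset.mem_Icc]
    constructor
    · apply Nat.le_floor
      rw [Nat.cast_sub hn]
      push_cast
      exact (h1 d hd).le
    · exact Nat.floor_le_floor (h2 d hd).le
  have hc := Finset.card_le_card himg
  rw [Nat.card_Icc] at hc
  have hfl : (⌊(n : ℝ) + 2 + L⌋₊ : ℝ) ≤ n + 2 + L := Nat.floor_le (by positivity)
  have hge : n + 2 ≤ ⌊(n : ℝ) + 2 + L⌋₊ := by
    apply Nat.le_floor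
    push_cast
    linarith
  have hc' : ((u.image fun d => ⌊d⌋₊).card : ℝ) ≤ L + 5 := by
    have h3 : (u.image fun d => ⌊d⌋₊).card + n ≤ ⌊(n : ℝ) + 2 + L⌋₊ + 2 := by omega
    have h4 : (((u.image fun d => ⌊d⌋₊).card + n : ℕ) : ℝ) ≤ ((⌊(n : ℝ) + 2 + L⌋₊ + 2 : ℕ) : ℝ) := by
      exact_mod_cast h3
    push_cast at h4
    linarith
  calc (u.card : ℝ) ≤ ((M * (u.image fun d => ⌊d⌋₊).card : ℕ) : ℝ) := by exact_mod_cast key
    _ = M * ((u.image fun d => ⌊d⌋₊).card : ℝ) := by push_cast; ring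
    _ ≤ M * (L + 5) := mul_le_mul_of_nonneg_left hc' (Nat.cast_nonneg _)

theorem few_of_near {E D : Set ℝ} (hE : ∀ x ∈ E, 8 < x) (hs : Sparse E) (M : ℕ)
    (hM : ∀ n : ℕ, (D ∩ Ico (n : ℝ) (n + 1)).Finite ∧ (D ∩ Ico (n : ℝ) (n + 1)).ncard ≤ M)
    (hn : ∀ d ∈ D, ∃ x ∈ E, x - 1 < d ∧ d < x + Real.log x ^ 2 + 1) : Few D := by
  classical
  intro σ hσ
  set δ : ℝ := (σ - 1 / 2) / 2 with hδdef
  have hδ : 0 < δ := by rw [hδdef]; linarith
  have hσ' : 1 / 2 < σ - δ := by rw [hδdef]; linarith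
  have hS := hs (σ - δ) hσ'
  choose! X hXE hX1 hX2 using hn
  set C : ℝ := 4 * 2 ^ δ / δ ^ 2 + 5 with hC
  have hC0 : 0 < C := by positivity
  -- the map to the index set
  let Zt : Set ℕ := (fun x : ℝ => ⌊x⌋₊) '' E
  let m : D → Zt := fun d => ⟨⌊X d⌋₊, ⟨X d, hXE d d.2, rfl⟩⟩
  refine summable_of_sum_le (c := M * 2 ^ σ * C * ∑' n : Zt, ((n : ℕ) : ℝ) ^ (-(σ - δ))) ?_ ?_
  · intro d
    exact Real.rpow_nonneg (by
      have h1 := hX1 d d.2
      have h2 := hE _ (hXE d d.2)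
      linarith) _
  intro u
  have hfib : ∑ d ∈ u, (d : ℝ) ^ (-σ) = ∑ n ∈ u.image m, ∑ d ∈ u.filter (fun d => m d = n), (d : ℝ) ^ (-σ) := by
    rw [Finset.sum_fiberwise_of_maps_to]
    intro d hd
    exact Finset.mem_image_of_mem _ hd
  have hbound : ∀ n ∈ u.image m, ∑ d ∈ u.filter (fun d => m d = n), (d : ℝ) ^ (-σ) ≤
      M * 2 ^ σ * C * ((n : ℕ) : ℝ) ^ (-(σ - δ)) := by
    intro n hn
    obtain ⟨d0, _, hd0⟩ := Finset.mem_image.1 hn
    have hn8 : 8 ≤ (n : ℕ) := by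
      rw [← hd0]
      show 8 ≤ ⌊X d0⌋₊
      apply Nat.le_floor
      have := hE _ (hXE d0 d0.2)
      push_cast
      linarith
    have hn8r : (8 : ℝ) ≤ ((n : ℕ) : ℝ) := by exact_mod_cast hn8
    -- the elements of the fibre
    have hel : ∀ d ∈ u.filter (fun d => m d = n), ((n : ℕ) : ℝ) - 1 < d ∧
        (d : ℝ) < ((n : ℕ) : ℝ) + 2 + Real.log (((n : ℕ) : ℝ) + 1) ^ 2 := by
      intro d hd
      rw [Finset.mem_filter] at hd
      have e : ⌊X d⌋₊ = (n : ℕ) := by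
        have := congrArg Subtype.val hd.2
        exact this
      have hx8 := hE _ (hXE d d.2)
      have f1 : ((n : ℕ) : ℝ) ≤ X d := by rw [← e]; exact Nat.floor_le (by linarith)
      have f2 : X d < ((n : ℕ) : ℝ) + 1 := by rw [← e]; exact Nat.lt_floor_add_one _
      have g1 := hX1 d d.2
      have g2 := hX2 d d.2
      have g3 : Real.log (X d) ^ 2 ≤ Real.log (((n : ℕ) : ℝ) + 1) ^ 2 := by
        apply pow_le_pow_left₀ (Real.log_nonneg (by linarith))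
        exact Real.log_le_log (by linarith) f2.le
      constructor <;> linarith
    have hcard : ((u.filter (fun d => m d = n)).card : ℝ) ≤ M * (Real.log (((n : ℕ) : ℝ) + 1) ^ 2 + 5) := by
      have := card_window M hM ((u.filter (fun d => m d = n)).map (Function.Embedding.subtype _)) (by
          intro d hd
          obtain ⟨d', _, rfl⟩ := Finset.mem_map.1 hd
          exact d'.2) n (by omega) (Real.log (((n : ℕ) : ℝ) + 1) ^ 2) (by positivity) (by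
          intro d hd
          obtain ⟨d', hd', rfl⟩ := Finset.mem_map.1 hd
          exact (hel d' hd').1) (by
          intro d hd
          obtain ⟨d', hd', rfl⟩ := Finset.mem_map.1 hd
          exact (hel d' hd').2)
      rwa [Finset.card_map] at this
    have hterm : ∀ d ∈ u.filter (fun d => m d = n), (d : ℝ) ^ (-σ) ≤ 2 ^ σ * ((n : ℕ) : ℝ) ^ (-σ) := by
      intro d hd
      have h1 := (hel d hd).1
      have hd2 : ((n : ℕ) : ℝ) / 2 ≤ d := by linarith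
      have h3 : (d : ℝ) ^ (-σ) ≤ (((n : ℕ) : ℝ) / 2) ^ (-σ) :=
        Real.rpow_le_rpow_of_nonpos (by linarith) hd2 (by linarith)
      have h4 : (((n : ℕ) : ℝ) / 2) ^ (-σ) = 2 ^ σ * ((n : ℕ) : ℝ) ^ (-σ) := by
        rw [Real.div_rpow (by linarith) (by norm_num), Real.rpow_neg (by norm_num : (0:ℝ) ≤ 2)]
        field_simp
      linarith
    calc ∑ d ∈ u.filter (fun d => m d = n), (d : ℝ) ^ (-σ)
        ≤ ∑ _d ∈ u.filter (fun d => m d = n), 2 ^ σ * ((n : ℕ) : ℝ) ^ (-σ) := Finset.sum_le_sum hterm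
      _ = ((u.filter (fun d => m d = n)).card : ℝ) * (2 ^ σ * ((n : ℕ) : ℝ) ^ (-σ)) := by
          rw [Finset.sum_const, nsmul_eq_mul]
      _ ≤ (M * (Real.log (((n : ℕ) : ℝ) + 1) ^ 2 + 5)) * (2 ^ σ * ((n : ℕ) : ℝ) ^ (-σ)) :=
          mul_le_mul_of_nonneg_right hcard (by positivity)
      _ ≤ (M * (C * ((n : ℕ) : ℝ) ^ δ)) * (2 ^ σ * ((n : ℕ) : ℝ) ^ (-σ)) := by
          apply mul_le_mul_of_nonneg_right _ (by positivity)
          exact mul_le_mul_of_nonneg_left (log_sq_le hδ (by linarith)) (Nat.cast_nonneg _)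
      _ = M * 2 ^ σ * C * (((n : ℕ) : ℝ) ^ δ * ((n : ℕ) : ℝ) ^ (-σ)) := by ring
      _ = _ := by
          rw [← Real.rpow_add (by linarith)]
          congr 2
          ring
  calc ∑ d ∈ u, (d : ℝ) ^ (-σ) = _ := hfib
    _ ≤ ∑ n ∈ u.image m, M * 2 ^ σ * C * ((n : ℕ) : ℝ) ^ (-(σ - δ)) := Finset.sum_le_sum hbound
    _ = M * 2 ^ σ * C * ∑ n ∈ u.image m, ((n : ℕ) : ℝ) ^ (-(σ - δ)) := by rw [Finset.mul_sum]
    _ ≤ M * 2 ^ σ * C * ∑' n : Zt, ((n : ℕ) : ℝ) ^ (-(σ - δ)) := by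
        apply mul_le_mul_of_nonneg_left _ (by positivity)
        exact hS.sum_le_tsum _ (fun n _ => by positivity)

end Pool.Agent.H41.SZ
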