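import Pool.Agent.H41.SZ.Fr
import Pool.Agent.H41.SZ.Sum

/-! # Project SZ, SZ-FEW (helper91): the modification is thin -/

set_option autoImplicit false

open MeasureTheory Filter Topology Set

namespace Pool.Agent.H41.SZ

theorem few_mono {D D' : Set ℝ} (hD : D' ⊆ D) (h : Few D) : Few D' := fun σ hσ =>
  (h σ hσ).comp_injective (inclusion_injective hD)

theorem few_union {D D' : Set ℝ} (h : Few D) (h' : Few D') : Few (D ∪ D') := by
  intro σ hσ
  have h1 : Summable (D.indicator fun d : ℝ => d ^ (-σ)) := summable_subtype_iff_indicator.1 (h σ hσ)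
  have h2 : Summable ((D' \ D).indicator fun d : ℝ => d ^ (-σ)) :=
    summable_subtype_iff_indicator.1 (few_mono sdiff_subset h' σ hσ)
  have h3 : Summable ((D ∪ D').indicator fun d : ℝ => d ^ (-σ)) := by
    rw [← union_sdiff_self, indicator_union_of_disjoint disjoint_sdiff_right]
    exact h1.add h2
  exact summable_subtype_iff_indicator.2 h3

theorem few_fin {D : Set ℝ} (h : D.Finite) : Few D := fun σ _ => h.summable fun d : ℝ => d ^ (-σ)

lemma fr_fin {F : Set (ℝ × ℝ)} (h : ∀ q ∈ F, 1 ≤ q.2) (y x : ℝ) : (frontier (Zn F) ∩ Icc y x).Finite := by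
  have hsub : frontier (Zn F) ∩ Icc y x ⊆ ⋃ k ∈ Finset.range (⌊x - y⌋₊ + 1), frontier (Zn F) ∩ Ico (y + k) (y + k + 1) := by
    rintro t ⟨ht, h1, h2⟩
    have h3 : (⌊t - y⌋₊ : ℝ) ≤ t - y := Nat.floor_le (by linarith)
    have h4 := Nat.lt_floor_add_one (t - y)
    have h5 : ⌊t - y⌋₊ ≤ ⌊x - y⌋₊ := Nat.floor_le_floor (by linarith)
    refine mem_biUnion (show ⌊t - y⌋₊ ∈ Finset.range (⌊x - y⌋₊ + 1) from Finset.mem_range.2 (by omega)) ⟨ht, ?_, ?_⟩
    · linarith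
    · linarith
  exact ((Finset.finite_toSet _).biUnion fun k _ => (fr_card h _).1).subset hsub

theorem mk_sys {P0 Q G : Set ℝ} {F : Set (ℝ × ℝ)} {y : ℝ} (hy : 8 ≤ y) (h0 : IsSys P0) (hF : Fam F) (hQ : Q.Finite)
    (hQ1 : ∀ q ∈ Q, 1 < q) (hG : G.Finite) : IsSys (mk Q (P0 ∪ G) (Zn F) y) where
  one_lt := by
    rintro p (hp | ⟨-, hp⟩)
    · exact hQ1 p hp
    · have : y < p := hp
      linarith
  fin x := by
    have hsub : mk Q (P0 ∪ G) (Zn F) y ∩ Iic x ⊆ Q ∪ (P0 ∩ Iic x) ∪ G ∪ (frontier (Zn F) ∩ Icc y x) := by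
      rintro p ⟨(hp | ⟨(⟨hp | hp, -⟩ | hp), hpy⟩), hpx⟩
      · exact Or.inl (Or.inl (Or.inl hp))
      · exact Or.inl (Or.inl (Or.inr ⟨hp, hpx⟩))
      · exact Or.inl (Or.inr hp)
      · exact Or.inr ⟨hp, le_of_lt hpy, hpx⟩
    exact (((hQ.union (h0.fin x)).union hG).union (fr_fin hF.one_le y x)).subset hsub

theorem mk_few {P0 Q G : Set ℝ} {F : Set (ℝ × ℝ)} {y : ℝ} (hy : 8 ≤ y) (h0 : IsSys P0)
    (h3 : ∀ n : ℕ, (P0 ∩ Ico (n : ℝ) (n + 1)).ncard ≤ 3) (hF : Fam F) (hQ : Q.Finite) (hG : G.Finite) :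
    Few (symmDiff P0 (mk Q (P0 ∪ G) (Zn F) y)) := by
  have hE : ∀ x ∈ Prod.fst '' F, 8 < x := by
    rintro x ⟨q, hq, rfl⟩
    exact hF.pos q hq
  have f1 : Few (P0 ∩ Zn F) := by
    refine few_of_near hE hF.sparse 3 (fun n => ?_) fun d hd => ?_
    · have hfin : (P0 ∩ Ico (n : ℝ) (n + 1)).Finite :=
        (h0.fin (n + 1)).subset (inter_subset_inter_right _ fun t ht => ht.2.le)
      have hsub : P0 ∩ Zn F ∩ Ico (n : ℝ) (n + 1) ⊆ P0 ∩ Ico (n : ℝ) (n + 1) :=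
        inter_subset_inter_left _ inter_subset_left
      exact ⟨hfin.subset hsub, (ncard_le_ncard hsub hfin).trans (h3 n)⟩
    · obtain ⟨q, hq, h1, h2⟩ := mem_zn.1 hd.2
      refine ⟨q.1, ⟨q, hq, rfl⟩, by linarith, ?_⟩
      have := hF.le q hq
      linarith
  have f2 : Few (frontier (Zn F)) := by
    refine few_of_near hE hF.sparse 2 (fun n => fr_card hF.one_le n) fun d hd => ?_
    obtain ⟨q, hq, h1, h2⟩ := fr_near hd
    refine ⟨q.1, ⟨q, hq, rfl⟩, h1, ?_⟩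
    have := hF.le q hq
    linarith
  have hall : Few (Q ∪ G ∪ (P0 ∩ Iic y) ∪ (P0 ∩ Zn F) ∪ frontier (Zn F)) :=
    few_union (few_union (few_union (few_union (few_fin hQ) (few_fin hG)) (few_fin (h0.fin y))) f1) f2
  refine few_mono ?_ hall
  rintro p (⟨hp, hpn⟩ | ⟨hp, hpn⟩)
  · by_cases hpy : p ≤ y
    · exact Or.inl (Or.inl (Or.inr ⟨hp, hpy⟩))
    · push Not at hpy
      by_cases hz : p ∈ Zn F
      · exact Or.inl (Or.inr ⟨hp, hz⟩)
      · exact absurd (Or.inr ⟨Or.inl ⟨Or.inl hp, hz⟩, hpy⟩) hpn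
  · rcases hp with hp | ⟨(⟨hp | hp, -⟩ | hp), -⟩
    · exact Or.inl (Or.inl (Or.inl (Or.inl hp)))
    · exact absurd hp hpn
    · exact Or.inl (Or.inl (Or.inl (Or.inr hp)))
    · exact Or.inr hp

end Pool.Agent.H41.SZ
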