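import Pool.Agent.H41.SZ.Ezn

/-! # Project SZ: additional zones at the powers of four -/

set_option autoImplicit false

open MeasureTheory Filter Topology Set

namespace Pool.Agent.H41.SZ

lemma log_four_lt : Real.log 4 < 1.4 := by
  have : Real.log 4 = 2 * Real.log 2 := by
    rw [show (4:ℝ) = 2 ^ 2 by norm_num, Real.log_pow]; norm_num
  rw [this]
  have := Real.log_two_lt_d9
  linarith

lemma pow_gap {k : ℕ} (hk : 2 ≤ k) : (4:ℝ) ^ k + Real.log (4 ^ k) ^ 2 < 4 ^ (k + 1) := by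
  rw [Real.log_pow]
  have h4 := log_four_lt
  have h40 : 0 < Real.log 4 := Real.log_pos (by norm_num)
  have h1 : ((k : ℝ) * Real.log 4) ^ 2 ≤ (k * 1.4) ^ 2 := by
    apply pow_le_pow_left₀ (by positivity)
    exact mul_le_mul_of_nonneg_left h4.le (Nat.cast_nonneg _)
  have h2 : ((k : ℝ) * 1.4) ^ 2 < 3 * 4 ^ k := by
    induction k, hk using Nat.le_induction with
    | base => norm_num
    | succ k hk ih =>
      have h3 : (2:ℝ) ≤ k := by exact_mod_cast hk
      have ih' := ih (by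
        apply pow_le_pow_left₀ (by positivity)
        exact mul_le_mul_of_nonneg_left h4.le (Nat.cast_nonneg _))
      push_cast
      rw [pow_succ (4:ℝ) k]
      nlinarith
  rw [pow_succ (4:ℝ) k]
  linarith

theorem exc_Y {y : ℝ} (hy : 8 ≤ y) {E : Set ℝ} (h : Adm y E) {k0 : ℕ} (hk : 2 ≤ k0)
    (hk0 : ∀ x ∈ E, x + Real.log x ^ 2 < 4 ^ k0) :
    {x | y < x ∧ Ioo x (x + Real.log x ^ 2) ⊆ Zn (FE E ∪ FY k0)} = E := by
  -- powers of four
  have hpow : ∀ j k : ℕ, k0 ≤ j → j < k → (4:ℝ) ^ j + Real.log (4 ^ j) ^ 2 < 4 ^ k := by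
    intro j k hj hjk
    exact (pow_gap (hk.trans hj)).trans_le (pow_le_pow_right₀ (by norm_num) hjk)
  have hlk : ∀ k : ℕ, k0 ≤ k → 1 < Real.log ((4:ℝ) ^ k) ^ 2 := by
    intro k hk1
    have h1 : 1 < Real.log ((4:ℝ) ^ k) := by
      rw [Real.lt_log_iff_exp_lt (by positivity)]
      have h2 := Real.exp_one_lt_d9
      have h3 : (4:ℝ) ^ 2 ≤ 4 ^ k := pow_le_pow_right₀ (by norm_num) (hk.trans hk1)
      norm_num at h3
      linarith
    nlinarith
  have hE4 : ∀ x ∈ E, ∀ k, k0 ≤ k → x + Real.log x ^ 2 < 4 ^ k := fun x hx k hkk =>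
    (hk0 x hx).trans_le (pow_le_pow_right₀ (by norm_num) hkk)
  -- the end points are not in the zones
  have hno1 : ∀ k, k0 ≤ k → (4:ℝ) ^ k ∉ Zn (FE E ∪ FY k0) := by
    intro k hkk hm
    obtain ⟨q, hq, hz⟩ := mem_iUnion₂.1 hm
    rcases hq with ⟨hq1, hq2⟩ | ⟨j, hj, hq1, hq2⟩
    · have := hE4 _ hq1 k hkk
      have h2 := hz.2
      rw [hq2] at h2
      linarith
    · rcases lt_or_ge j k with hjk | hjk
      · have := hpow j k hj hjk
        have h2 := hz.2
        rw [hq1, hq2] at h2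
        linarith
      · have h1 := hz.1
        rw [hq1] at h1
        have : (4:ℝ) ^ k ≤ 4 ^ j := pow_le_pow_right₀ (by norm_num) hjk
        linarith
  have hno2 : ∀ k, k0 ≤ k → (4:ℝ) ^ k + (Real.log (4 ^ k) ^ 2 - 1) ∉ Zn (FE E ∪ FY k0) := by
    intro k hkk hm
    have hl := hlk k hkk
    obtain ⟨q, hq, hz⟩ := mem_iUnion₂.1 hm
    rcases hq with ⟨hq1, hq2⟩ | ⟨j, hj, hq1, hq2⟩
    · have := hE4 _ hq1 k hkk
      have h2 := hz.2
      rw [hq2] at h2
      linarith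
    · have h1 := hz.1
      have h2 := hz.2
      rw [hq1] at h1
      rw [hq1, hq2] at h2
      rcases lt_trichotomy j k with hjk | hjk | hjk
      · have := hpow j k hj hjk
        linarith
      · rw [hjk] at h2
        exact lt_irrefl _ h2
      · have := hpow k j hkk hjk
        linarith
  ext x
  constructor
  · rintro ⟨hyx, hx⟩
    have hx1 : 1 ≤ x := by linarith
    -- no point in the additional zones
    have hFY : ∀ z ∈ Ioo x (x + Real.log x ^ 2), ∀ k, k0 ≤ k →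
        ¬ ((4:ℝ) ^ k < z ∧ z < 4 ^ k + (Real.log (4 ^ k) ^ 2 - 1)) := by
      rintro z hz k hkk ⟨h1, h2⟩
      have h3 : (4:ℝ) ^ k ≤ x := by
        by_contra hcon
        exact hno1 k hkk (hx ⟨not_le.1 hcon, h1.trans hz.2⟩)
      have h4 : x + Real.log x ^ 2 ≤ 4 ^ k + (Real.log (4 ^ k) ^ 2 - 1) := by
        by_contra hcon
        exact hno2 k hkk (hx ⟨hz.1.trans h2, not_le.1 hcon⟩)
      have h5 := lsq_mono (one_le_pow₀ (by norm_num)) h3
      linarith
    have hx' : Ioo x (x + Real.log x ^ 2) ⊆ Zn (FE E) := by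
      intro z hz
      obtain ⟨q, hq, hzq⟩ := mem_iUnion₂.1 (hx hz)
      rcases hq with hq | ⟨j, hj, hq1, hq2⟩
      · exact mem_iUnion₂.2 ⟨q, hq, hzq⟩
      · exfalso
        have h1 := hzq.1
        have h2 := hzq.2
        rw [hq1] at h1
        rw [hq1, hq2] at h2
        exact hFY z hz j hj ⟨h1, h2⟩
    have := exc_E hy h
    exact this ▸ (show x ∈ {x | y < x ∧ Ioo x (x + Real.log x ^ 2) ⊆ Zn (FE E)} from ⟨hyx, hx'⟩)
  · intro hx
    have h1 : x ∈ {x | y < x ∧ Ioo x (x + Real.log x ^ 2) ⊆ Zn (FE E)} := by rw [exc_E hy h]; exact hx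
    refine ⟨h1.1, h1.2.trans ?_⟩
    exact biUnion_subset_biUnion_left subset_union_left

end Pool.Agent.H41.SZ
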