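import Pool.Agent.H41.SZ.Base
import Pool.Agent.H41.SZ.Mod
import Pool.Agent.H41.SZ.Cnt
import Pool.Agent.H41.SZ.Few
import Pool.Agent.H41.SZ.Exc
import Pool.Agent.H41.SZ.Yzn
import Pool.Agent.H41.SZ.Fam
import Pool.Agent.H41.SZ.Adm

/-! # Project SZ: assembly -/

set_option autoImplicit false

open MeasureTheory Filter Topology Set

namespace Pool.Agent.H41.SZ

lemma four_pow_large (b : ℝ) : ∃ k0 : ℕ, 2 ≤ k0 ∧ b < 4 ^ k0 := by
  obtain ⟨k, hk⟩ := pow_unbounded_of_one_lt b (by norm_num : (1:ℝ) < 4)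
  exact ⟨k + 2, by omega, hk.trans_le (pow_le_pow_right₀ (by norm_num) (by omega))⟩

/-- the construction, for a given family of zones -/
theorem construct {y : ℝ} (hy : 8 ≤ y) {Q : Set ℝ} (hQ : Q.Finite) (hQ1 : Q ⊆ Ioc 1 y) {F : Set (ℝ × ℝ)} (hF : Fam F) :
    ∃ P : Set ℝ, IsSys P ∧ NumOK P ∧ CntOK P ∧ P ∩ Iic y = Q ∧
      Exc y P = {x | y < x ∧ Ioo x (x + Real.log x ^ 2) ⊆ Zn F} ∧ ∀ p ∈ P, y < p → p ∉ Zn F := by
  obtain ⟨P0, h0, hN, hC, h3, X0, hX⟩ := base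
  -- the grid
  set K : ℕ := ⌈X0 - y⌉₊ + 1 with hK
  set G : Set ℝ := (fun k : ℕ => y + k) '' (Finset.Icc 1 K : Finset ℕ) with hG
  have hGf : G.Finite := (Finset.finite_toSet _).image _
  have hlog : ∀ x : ℝ, 8 ≤ x → 1 < Real.log x ^ 2 := by
    intro x hx
    have h1 : 1 < Real.log x := by
      rw [Real.lt_log_iff_exp_lt (by linarith)]
      have := Real.exp_one_lt_d9
      linarith
    nlinarith
  have hB : ∀ x, y < x → ∃ p ∈ P0 ∪ G, x < p ∧ p < x + Real.log x ^ 2 := by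
    intro x hx
    rcases le_or_gt X0 x with h | h
    · obtain ⟨p, hp, h1, h2⟩ := hX x h
      exact ⟨p, Or.inl hp, h1, h2⟩
    · refine ⟨y + ((⌊x - y⌋₊ + 1 : ℕ) : ℝ), Or.inr ⟨⌊x - y⌋₊ + 1, ?_, rfl⟩, ?_, ?_⟩
      · rw [Finset.mem_coe, Finset.mem_Icc]
        refine ⟨by omega, ?_⟩
        have : ⌊x - y⌋₊ ≤ ⌈X0 - y⌉₊ := by
          refine (Nat.floor_le_ceil _).trans (Nat.ceil_mono (by linarith))
        omega
      · have := Nat.lt_floor_add_one (x - y)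
        push_cast
        linarith
      · have h1 := Nat.floor_le (by linarith : 0 ≤ x - y)
        have h2 := hlog x (by linarith)
        push_cast
        linarith
  have hQy : ∀ q ∈ Q, q ≤ y := fun q hq => (hQ1 hq).2
  have hS : IsSys (mk Q (P0 ∪ G) (Zn F) y) := mk_sys hy h0 hF hQ (fun q hq => (hQ1 hq).1) hGf
  have hFew := mk_few (Q := Q) (G := G) hy h0 h3 hF hQ hGf
  refine ⟨mk Q (P0 ∪ G) (Zn F) y, hS, modify h0 hS hN hFew, cnt_modify h0 hS hC hFew, ?_, exc_mk (zn_open F) hQy hB, ?_⟩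
  · ext p
    constructor
    · rintro ⟨hp | hp, hpy⟩
      · exact hp
      · exact absurd (mem_Iic.1 hpy) (not_le.2 hp.2)
    · intro hp
      exact ⟨Or.inl hp, hQy p hp⟩
  · rintro p (hp | ⟨hp | hp, -⟩) hpy
    · exact absurd (hQy p hp) (not_le.2 hpy)
    · exact hp.2
    · have := (zn_open F).frontier_eq ▸ hp
      exact this.2

theorem main {y : ℝ} (hy : 8 ≤ y) {Q : Set ℝ} (hQ : Q.Finite) (hQ1 : Q ⊆ Ioc 1 y) {E : Set ℝ} (hE : Sparse E)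
    (hA : Adm y E) : ∃ P : Set ℝ, IsSys P ∧ NumOK P ∧ CntOK P ∧ P ∩ Iic y = Q ∧ Exc y P = E ∧ CrL P := by
  have hE8 : ∀ x ∈ E, 8 < x := fun x hx => hy.trans_lt (hA.gt x hx)
  by_cases hb : ∃ b : ℝ, ∀ x ∈ E, x ≤ b
  · obtain ⟨b, hb⟩ := hb
    obtain ⟨k0, hk, hk0⟩ := four_pow_large (max y (b + Real.log b ^ 2))
    have hk1 : ∀ x ∈ E, x + Real.log x ^ 2 < 4 ^ k0 := by
      intro x hx
      have h8 := hE8 x hx
      have hxb := hb x hx
      have h1 : Real.log x ≤ Real.log b := Real.log_le_log (by linarith) hxb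
      have h2 : 0 ≤ Real.log x := Real.log_nonneg (by linarith)
      have h3 : Real.log x ^ 2 ≤ Real.log b ^ 2 := pow_le_pow_left₀ h2 h1 2
      have := (le_max_right y _).trans_lt hk0
      linarith
    obtain ⟨P, h1, h2, h3, h4, h5, h6⟩ := construct hy hQ hQ1 (fam_EY hE8 hE hk)
    refine ⟨P, h1, h2, h3, h4, h5.trans (exc_Y hy hA hk hk1), ?_⟩
    intro δ hδ
    rw [Filter.frequently_atTop]
    intro X
    -- a large power of four
    have hl : Tendsto (fun k : ℕ => Real.log ((4:ℝ) ^ k)) atTop atTop :=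
      Real.tendsto_log_atTop.comp (tendsto_pow_atTop_atTop_of_one_lt (by norm_num))
    obtain ⟨k, ⟨hkX, hkl⟩, hkk⟩ := ((((tendsto_pow_atTop_atTop_of_one_lt (by norm_num : (1:ℝ) < 4)).eventually_ge_atTop X).and
      (hl.eventually_ge_atTop (1 + 1 / δ))).and (eventually_ge_atTop k0)).exists
    refine ⟨4 ^ k, hkX, ?_⟩
    rintro p hp ⟨hp1, hp2⟩
    have hky : y < 4 ^ k := by
      have h7 : (4:ℝ) ^ k0 ≤ 4 ^ k := pow_le_pow_right₀ (by norm_num) hkk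
      have := (le_max_left y _).trans_lt hk0
      linarith
    refine h6 p hp (hky.trans hp1) ?_
    refine mem_iUnion₂.2 ⟨(4 ^ k, Real.log (4 ^ k) ^ 2 - 1), Or.inr ⟨k, hkk, rfl, rfl⟩, hp1, ?_⟩
    have h8 : 1 ≤ δ * Real.log (4 ^ k) ^ 2 := by
      have h9 : 1 ≤ δ * Real.log (4 ^ k) := by
        have : δ * (1 + 1 / δ) ≤ δ * Real.log (4 ^ k) := mul_le_mul_of_nonneg_left hkl hδ.le
        have h10 : δ * (1 + 1 / δ) = δ + 1 := by field_simp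
        linarith
      have h11 : 1 ≤ Real.log ((4:ℝ) ^ k) := by
        have : 0 < 1 / δ := by positivity
        linarith
      calc (1:ℝ) ≤ δ * Real.log (4 ^ k) := h9
        _ ≤ (δ * Real.log (4 ^ k)) * Real.log (4 ^ k) := le_mul_of_one_le_right (by linarith) h11
        _ = _ := by ring
    change p < 4 ^ k + (Real.log (4 ^ k) ^ 2 - 1)
    linarith
  · push Not at hb
    obtain ⟨P, h1, h2, h3, h4, h5, h6⟩ := construct hy hQ hQ1 (fam_E hE8 hE)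
    have h7 := h5.trans (exc_E hy hA)
    refine ⟨P, h1, h2, h3, h4, h7, ?_⟩
    intro δ hδ
    rw [Filter.frequently_atTop]
    intro X
    obtain ⟨x, hx, hxX⟩ := hb X
    refine ⟨x, hxX.le, ?_⟩
    rintro p hp ⟨hp1, hp2⟩
    rw [← h7] at hx
    refine hx.2 p hp ⟨hp1, hp2.trans_le ?_⟩
    nlinarith [sq_nonneg (Real.log x)]

theorem final (y : ℝ) (hy : 8 ≤ y) (Q : Set ℝ) (hQ : Q.Finite) (hQ1 : Q ⊆ Ioc 1 y) (E : Set ℝ) (hE : Sparse E) :
    ((∃ P : Set ℝ, IsSys P ∧ NumOK P ∧ CntOK P ∧ P ∩ Iic y = Q ∧ Exc y P = E) ↔ Adm y E) ∧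
    ((∃ P : Set ℝ, IsSys P ∧ NumOK P ∧ CntOK P ∧ CrU P ∧ CrL P ∧ P ∩ Iic y = Q ∧ Exc y P = E) ↔
      Adm y E ∧ Thin E) := by
  refine ⟨⟨?_, fun hA => ?_⟩, ?_, ?_⟩
  · rintro ⟨P, -, -, -, -, rfl⟩
    exact exc_adm hy P
  · obtain ⟨P, h1, h2, h3, h4, h5, -⟩ := main hy hQ hQ1 hE hA
    exact ⟨P, h1, h2, h3, h4, h5⟩
  · rintro ⟨P, -, -, -, hU, -, -, rfl⟩
    exact ⟨exc_adm hy P, thin_of_cr hy hU⟩
  · rintro ⟨hA, hT⟩
    obtain ⟨P, h1, h2, h3, h4, h5, h6⟩ := main hy hQ hQ1 hE hA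
    exact ⟨P, h1, h2, h3, cr_of_thin hy (h5 ▸ hT), h6, h4, h5⟩

end Pool.Agent.H41.SZ
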