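import Pool.Agent.H41.SZ.Defs

/-! # Project SZ, SZ-FR (helper91): the frontier of the zones -/

set_option autoImplicit false

open MeasureTheory Filter Topology Set

namespace Pool.Agent.H41.SZ

theorem zn_open (F : Set (ℝ × ℝ)) : IsOpen (Zn F) :=
  isOpen_biUnion fun _ _ => isOpen_Ioo

lemma mem_zn {F : Set (ℝ × ℝ)} {z : ℝ} : z ∈ Zn F ↔ ∃ q ∈ F, q.1 < z ∧ z < q.1 + q.2 := by
  simp only [Zn, mem_iUnion, mem_Ioo, exists_prop]

lemma fr_mem {F : Set (ℝ × ℝ)} {t : ℝ} (ht : t ∈ frontier (Zn F)) : t ∉ Zn F ∧ ∀ ε : ℝ, 0 < ε → ∃ z ∈ Zn F, |z - t| < ε := by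
  rw [(zn_open F).frontier_eq] at ht
  refine ⟨ht.2, fun ε hε => ?_⟩
  obtain ⟨z, hz, hd⟩ := Metric.mem_closure_iff.1 ht.1 ε hε
  refine ⟨z, hz, ?_⟩
  rw [dist_comm, Real.dist_eq] at hd
  exact hd

theorem fr_side {F : Set (ℝ × ℝ)} (h : ∀ q ∈ F, 1 ≤ q.2) {t : ℝ} (ht : t ∈ frontier (Zn F)) :
    Ioo t (t + 1) ⊆ Zn F ∨ Ioo (t - 1) t ⊆ Zn F := by
  obtain ⟨hn, hc⟩ := fr_mem ht
  by_cases hr : ∀ ε : ℝ, 0 < ε → ∃ q ∈ F, t ≤ q.1 ∧ q.1 < t + ε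
  · left
    intro w hw
    obtain ⟨q, hq, h1, h2⟩ := hr (w - t) (by linarith [hw.1])
    exact mem_zn.2 ⟨q, hq, by linarith, by linarith [h q hq, hw.2]⟩
  · right
    push Not at hr
    obtain ⟨ε, hε, hr⟩ := hr
    intro w hw
    obtain ⟨z, hz, hzt⟩ := hc (min ε (t - w)) (lt_min hε (by linarith [hw.2]))
    obtain ⟨q, hq, h1, h2⟩ := mem_zn.1 hz
    obtain ⟨z1, z2⟩ := abs_lt.1 hzt
    have z3 : min ε (t - w) ≤ ε := min_le_left _ _
    have z4 : min ε (t - w) ≤ t - w := min_le_right _ _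
    have hq1 : q.1 < t := by
      by_contra hcon
      push Not at hcon
      have := hr q hq hcon
      linarith
    have hq2 : q.1 + q.2 ≤ t := by
      by_contra hcon
      push Not at hcon
      exact hn (mem_zn.2 ⟨q, hq, hq1, hcon⟩)
    have hl := h q hq
    exact mem_zn.2 ⟨q, hq, by linarith [hw.1], by linarith⟩

/-- points at distance `≥ 1` in a half open interval of length one -/
lemma card_sep {A : Set ℝ} {n : ℝ} (h : ∀ s ∈ A, ∀ t ∈ A, s < t → s + 1 ≤ t) : (A ∩ Ico n (n + 1)).Subsingleton := by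
  rintro s ⟨hs, hs1, hs2⟩ t ⟨ht, ht1, ht2⟩
  rcases lt_trichotomy s t with h1 | h1 | h1
  · have := h s hs t ht h1
    linarith
  · exact h1
  · have := h t ht s hs h1
    linarith

theorem fr_card {F : Set (ℝ × ℝ)} (h : ∀ q ∈ F, 1 ≤ q.2) (n : ℝ) :
    (frontier (Zn F) ∩ Ico n (n + 1)).Finite ∧ (frontier (Zn F) ∩ Ico n (n + 1)).ncard ≤ 2 := by
  set A := {t | t ∈ frontier (Zn F) ∧ Ioo t (t + 1) ⊆ Zn F} with hA
  set B := {t | t ∈ frontier (Zn F) ∧ Ioo (t - 1) t ⊆ Zn F} with hB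
  have hAs : (A ∩ Ico n (n + 1)).Subsingleton := by
    apply card_sep
    intro s hs t ht hst
    by_contra hcon
    push Not at hcon
    exact (fr_mem ht.1).1 (hs.2 ⟨hst, hcon⟩)
  have hBs : (B ∩ Ico n (n + 1)).Subsingleton := by
    apply card_sep
    intro s hs t ht hst
    by_contra hcon
    push Not at hcon
    exact (fr_mem hs.1).1 (ht.2 ⟨by linarith, hst⟩)
  have hsub : frontier (Zn F) ∩ Ico n (n + 1) ⊆ (A ∩ Ico n (n + 1)) ∪ (B ∩ Ico n (n + 1)) := by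
    rintro t ⟨ht, htn⟩
    rcases fr_side h ht with h1 | h1
    · exact Or.inl ⟨⟨ht, h1⟩, htn⟩
    · exact Or.inr ⟨⟨ht, h1⟩, htn⟩
  have hfin : ((A ∩ Ico n (n + 1)) ∪ (B ∩ Ico n (n + 1))).Finite := hAs.finite.union hBs.finite
  refine ⟨hfin.subset hsub, (ncard_le_ncard hsub hfin).trans ((ncard_union_le _ _).trans ?_)⟩
  have h1 : (A ∩ Ico n (n + 1)).ncard ≤ 1 := (ncard_le_one hAs.finite).2 fun a ha b hb => hAs ha hb
  have h2 : (B ∩ Ico n (n + 1)).ncard ≤ 1 := (ncard_le_one hBs.finite).2 fun a ha b hb => hBs ha hb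
  omega

theorem fr_near {F : Set (ℝ × ℝ)} {t : ℝ} (ht : t ∈ frontier (Zn F)) : ∃ q ∈ F, q.1 - 1 < t ∧ t < q.1 + q.2 + 1 := by
  obtain ⟨z, hz, hzt⟩ := (fr_mem ht).2 1 one_pos
  obtain ⟨q, hq, h1, h2⟩ := mem_zn.1 hz
  obtain ⟨z1, z2⟩ := abs_lt.1 hzt
  exact ⟨q, hq, by linarith, by linarith⟩

end Pool.Agent.H41.SZ
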