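import Pool.Agent.H41.SZ.Defs

/-! # Project SZ: Cramér's conjecture as an upper limit -/

set_option autoImplicit false

open MeasureTheory Filter Topology Set

namespace Pool.Agent.H41.SZ

/-- the least member larger than `x` -/
noncomputable def nxt (P : Set ℝ) (x : ℝ) : ℝ := sInf {p | p ∈ P ∧ x < p}

lemma nxt_le {P : Set ℝ} {x p : ℝ} (hp : p ∈ P) (hx : x < p) : nxt P x ≤ p :=
  csInf_le ⟨x, fun _ hq => hq.2.le⟩ ⟨hp, hx⟩

lemma unbounded {P : Set ℝ} (h : IsSys P) (hC : CntOK P) (x : ℝ) : ∃ p ∈ P, x < p := by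
  by_contra hcon
  push Not at hcon
  obtain ⟨A, hA⟩ := hC (1 / 4) (by norm_num)
  -- the count is bounded
  have hb : ∀ z, (cnt P z : ℝ) ≤ cnt P x := by
    intro z
    have : (P ∩ Iic z).ncard ≤ (P ∩ Iic x).ncard :=
      Set.ncard_le_ncard (fun p hp => ⟨hp.1, hcon p hp.1⟩) (h.fin x)
    exact_mod_cast this
  have hli : ∀ z : ℝ, 2 ≤ z → (z - 2) / Real.log z ≤ ∫ t in (2 : ℝ)..z, 1 / Real.log t := by
    intro z hz
    have h1 : ∫ t in (2 : ℝ)..z, 1 / Real.log z = (z - 2) / Real.log z := by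
      rw [intervalIntegral.integral_const, smul_eq_mul]; ring
    rw [← h1]
    refine intervalIntegral.integral_mono_on hz (by simp) ?_ ?_
    · refine ContinuousOn.intervalIntegrable ?_
      intro t ht
      rw [uIcc_of_le hz] at ht
      have ht1 : 1 < t := by linarith [ht.1]
      exact (continuousAt_const.div (Real.continuousAt_log (by linarith)) (Real.log_pos ht1).ne').continuousWithinAt
    · intro t ht
      have ht1 : 1 < t := by linarith [ht.1]
      exact one_div_le_one_div_of_le (Real.log_pos ht1) (Real.log_le_log (by linarith) ht.2)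
  -- contradiction for large `z`
  have hev : ∀ᶠ z : ℝ in atTop, z ^ (7 / 8 : ℝ) ≤ (z - 2) / Real.log z := by
    have h1 : ∀ᶠ z : ℝ in atTop, ‖Real.log z‖ ≤ 1 / 2 * ‖z ^ (1 / 8 : ℝ)‖ :=
      (isLittleO_log_rpow_atTop (by norm_num : (0:ℝ) < 1 / 8)).bound (by norm_num)
    filter_upwards [h1, eventually_ge_atTop (4:ℝ)] with z hz hz4
    have hl : 0 < Real.log z := Real.log_pos (by linarith)
    rw [Real.norm_of_nonneg hl.le, Real.norm_of_nonneg (by positivity)] at hz
    rw [le_div_iff₀ hl]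
    calc z ^ (7 / 8 : ℝ) * Real.log z ≤ z ^ (7 / 8 : ℝ) * (1 / 2 * z ^ (1 / 8 : ℝ)) :=
          mul_le_mul_of_nonneg_left hz (by positivity)
      _ = 1 / 2 * (z ^ (7 / 8 : ℝ) * z ^ (1 / 8 : ℝ)) := by ring
      _ = z / 2 := by
          rw [← Real.rpow_add (by linarith)]; norm_num; ring
      _ ≤ z - 2 := by linarith
  have hev2 : ∀ᶠ z : ℝ in atTop, (cnt P x : ℝ) + |A| * z ^ (3 / 4 : ℝ) < z ^ (7 / 8 : ℝ) := by
    have h1 : Tendsto (fun z : ℝ => z ^ (1 / 8 : ℝ)) atTop atTop := tendsto_rpow_atTop (by norm_num)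
    filter_upwards [h1.eventually_gt_atTop (cnt P x + |A|), eventually_ge_atTop (1:ℝ)] with z hz hz1
    have h2 : 1 ≤ z ^ (3 / 4 : ℝ) := Real.one_le_rpow hz1 (by norm_num)
    have h3 : z ^ (7 / 8 : ℝ) = z ^ (1 / 8 : ℝ) * z ^ (3 / 4 : ℝ) := by
      rw [← Real.rpow_add (by linarith)]; norm_num
    rw [h3]
    have h4 : (cnt P x + |A|) * z ^ (3 / 4 : ℝ) < z ^ (1 / 8 : ℝ) * z ^ (3 / 4 : ℝ) :=
      mul_lt_mul_of_pos_right hz (by linarith)
    have h5 : (cnt P x : ℝ) ≤ cnt P x * z ^ (3 / 4 : ℝ) := le_mul_of_one_le_right (Nat.cast_nonneg _) h2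
    linarith
  obtain ⟨z, h1, h2, h3⟩ := (hev.and (hev2.and (eventually_ge_atTop 2))).exists
  have h4 := abs_le.1 (hA z h3)
  have h5 := hli z h3
  have h6 := hb z
  have h7 : A * z ^ (1 / 2 + 1 / 4 : ℝ) ≤ |A| * z ^ (3 / 4 : ℝ) := by
    have : (1 / 2 + 1 / 4 : ℝ) = 3 / 4 := by norm_num
    rw [this]
    exact mul_le_mul_of_nonneg_right (le_abs_self A) (by positivity)
  linarith [h4.1, h4.2]

theorem cramer_iff {P : Set ℝ} (hu : ∀ x, ∃ p ∈ P, x < p) :
    limsup (fun x : ℝ => ENNReal.ofReal ((nxt P x - x) / Real.log x ^ 2)) atTop = 1 ↔ CrU P ∧ CrL P := by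
  have hpos : ∀ᶠ x : ℝ in atTop, 0 < Real.log x ^ 2 := by
    filter_upwards [eventually_gt_atTop (1:ℝ)] with x hx
    have := Real.log_pos hx
    positivity
  constructor
  · intro hlim
    constructor
    · intro δ hδ
      have h1 : limsup (fun x : ℝ => ENNReal.ofReal ((nxt P x - x) / Real.log x ^ 2)) atTop < ENNReal.ofReal (1 + δ) := by
        rw [hlim]
        rw [← ENNReal.ofReal_one]
        exact (ENNReal.ofReal_lt_ofReal_iff (by linarith)).2 (by linarith)
      filter_upwards [eventually_lt_of_limsup_lt h1, hpos] with x hx hx0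
      rw [ENNReal.ofReal_lt_ofReal_iff (by linarith), div_lt_iff₀ hx0] at hx
      have hne : {p | p ∈ P ∧ x < p}.Nonempty := by
        obtain ⟨p, hp, hxp⟩ := hu x
        exact ⟨p, hp, hxp⟩
      obtain ⟨p, ⟨hp, hxp⟩, hp2⟩ := exists_lt_of_csInf_lt hne (show sInf {p | p ∈ P ∧ x < p} < x + (1 + δ) * Real.log x ^ 2 by
        have : nxt P x < x + (1 + δ) * Real.log x ^ 2 := by linarith
        exact this)
      exact ⟨p, hp, hxp, hp2⟩
    · intro δ hδ
      have h1 : ENNReal.ofReal (1 - δ) < limsup (fun x : ℝ => ENNReal.ofReal ((nxt P x - x) / Real.log x ^ 2)) atTop := by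
        rw [hlim, ← ENNReal.ofReal_one]
        exact (ENNReal.ofReal_lt_ofReal_iff (by norm_num)).2 (by linarith)
      have h2 := frequently_lt_of_lt_limsup (by isBoundedDefault) h1
      refine (h2.and_eventually hpos).mono ?_
      rintro x ⟨hx, hx0⟩ p hp ⟨hxp, hp2⟩
      have h3 : nxt P x - x < (1 - δ) * Real.log x ^ 2 := by
        have := nxt_le hp hxp
        linarith
      have h4 : (nxt P x - x) / Real.log x ^ 2 < 1 - δ := by
        rw [div_lt_iff₀ hx0]; exact h3
      exact absurd (ENNReal.ofReal_le_ofReal h4.le) (not_le.2 hx)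
  · rintro ⟨hU, hL⟩
    apply le_antisymm
    · refine le_of_forall_gt_imp_ge_of_dense fun a ha => ?_
      rcases eq_or_ne a ⊤ with rfl | hat
      · exact le_top
      obtain ⟨r, hr⟩ : ∃ r : ℝ, a = ENNReal.ofReal r := ⟨a.toReal, (ENNReal.ofReal_toReal hat).symm⟩
      subst hr
      have hr1 : 1 < r := by
        rw [← ENNReal.ofReal_one] at ha
        by_contra hcon
        exact absurd (ENNReal.ofReal_le_ofReal (not_lt.1 hcon)) (not_le.2 ha)
      refine limsup_le_of_le (by isBoundedDefault) ?_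
      filter_upwards [hU (r - 1) (by linarith), hpos] with x ⟨p, hp, h1, h2⟩ hx0
      refine ENNReal.ofReal_le_ofReal ?_
      rw [div_le_iff₀ hx0]
      have h3 := nxt_le hp h1
      have h4 : 1 + (r - 1) = r := by ring
      rw [h4] at h2
      linarith
    · refine le_of_forall_lt_imp_le_of_dense fun a ha => ?_
      obtain ⟨r, hr⟩ : ∃ r : ℝ, a = ENNReal.ofReal r := ⟨a.toReal, (ENNReal.ofReal_toReal (ne_top_of_lt ha)).symm⟩
      subst hr
      have hr1 : r < 1 := by
        by_contra hcon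
        rw [← ENNReal.ofReal_one] at ha
        exact absurd (ENNReal.ofReal_le_ofReal (not_lt.1 hcon)) (not_le.2 ha)
      refine le_limsup_of_frequently_le ?_ (by isBoundedDefault)
      refine ((hL (1 - r) (by linarith)).and_eventually hpos).mono ?_
      rintro x ⟨hx, hx0⟩
      refine ENNReal.ofReal_le_ofReal ?_
      rw [le_div_iff₀ hx0]
      have h4 : 1 - (1 - r) = r := by ring
      rw [h4] at hx
      have hne : {p | p ∈ P ∧ x < p}.Nonempty := by
        obtain ⟨p, hp, hxp⟩ := hu x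
        exact ⟨p, hp, hxp⟩
      have h5 : x + r * Real.log x ^ 2 ≤ nxt P x := by
        refine le_csInf hne ?_
        rintro p ⟨hp, hxp⟩
        by_contra hcon
        exact hx p hp ⟨hxp, not_le.1 hcon⟩
      linarith

end Pool.Agent.H41.SZ
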