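import Pool.Agent.H41.SZ.Defs

/-! SZ-NUM: finiteness and the dependence on the small members. -/

set_option autoImplicit false

open MeasureTheory Filter Topology Set

namespace Pool.Agent.H41.SZ

/-- the value of an exponent vector -/
noncomputable def val (a : ℝ →₀ ℕ) : ℝ := a.prod fun p k => p ^ k

theorem mem_ints {P : Set ℝ} {x : ℝ} {a : ℝ →₀ ℕ} : a ∈ ints P x ↔ (∀ p, a p ≠ 0 → p ∈ P) ∧ val a ≤ x := Iff.rfl

theorem val_eq {a : ℝ →₀ ℕ} (p : ℝ) : val a = p ^ (a p) * ∏ q ∈ a.support.erase p, q ^ (a q) := by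
  classical
  unfold val Finsupp.prod
  by_cases hp : p ∈ a.support
  · rw [← Finset.mul_prod_erase _ _ hp]
  · rw [Finset.erase_eq_of_notMem hp]
    rw [Finsupp.mem_support_iff, not_not] at hp
    rw [hp, pow_zero, one_mul]

theorem prod_ge {P : Set ℝ} (h : IsSys P) {a : ℝ →₀ ℕ} (ha : ∀ p, a p ≠ 0 → p ∈ P) (s : Finset ℝ) (hs : s ⊆ a.support) :
    1 ≤ ∏ q ∈ s, q ^ (a q) := by
  classical
  induction s using Finset.induction_on with
  | empty => simp
  | insert q s hq ih =>
    rw [Finset.prod_insert hq]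
    have h1 : 1 < q := h.one_lt q (ha q (Finsupp.mem_support_iff.1 (hs (Finset.mem_insert_self q s))))
    have h2 := ih ((Finset.subset_insert q s).trans hs)
    have h3 : 1 ≤ q ^ (a q) := one_le_pow₀ h1.le
    nlinarith

theorem pow_le_val {P : Set ℝ} (h : IsSys P) {a : ℝ →₀ ℕ} (ha : ∀ p, a p ≠ 0 → p ∈ P) {p : ℝ} (hp : 0 ≤ p) :
    p ^ (a p) ≤ val a := by
  classical
  rw [val_eq p]
  have := prod_ge h ha _ (Finset.erase_subset p a.support)
  have h1 : 0 ≤ p ^ (a p) := pow_nonneg hp _
  nlinarith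

theorem one_le_val {P : Set ℝ} (h : IsSys P) {a : ℝ →₀ ℕ} (ha : ∀ p, a p ≠ 0 → p ∈ P) : 1 ≤ val a :=
  prod_ge h ha _ subset_rfl

theorem le_val {P : Set ℝ} (h : IsSys P) {a : ℝ →₀ ℕ} (ha : ∀ p, a p ≠ 0 → p ∈ P) {p : ℝ} (hp : a p ≠ 0) :
    p ≤ val a := by
  have h1 := h.one_lt p (ha p hp)
  have h2 := pow_le_val h ha (p := p) (by linarith)
  have h3 : p ^ 1 ≤ p ^ (a p) := pow_le_pow_right₀ h1.le (Nat.one_le_iff_ne_zero.2 hp)
  rw [pow_one] at h3
  linarith

theorem ints_fin {P : Set ℝ} (h : IsSys P) (x : ℝ) : (ints P x).Finite := by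
  classical
  -- the finite set of members up to `x`
  set S := (h.fin x).toFinset with hS
  have hmS : ∀ p, p ∈ S ↔ p ∈ P ∧ p ≤ x := by intro p; simp [hS]
  -- a bound for the exponents
  obtain ⟨N, hN⟩ : ∃ N : ℕ, ∀ p ∈ S, x < p ^ N := by
    have : ∀ p : ℝ, ∃ n : ℕ, p ∈ S → x < p ^ n := by
      intro p
      by_cases hp : p ∈ S
      · obtain ⟨n, hn⟩ := pow_unbounded_of_one_lt x (h.one_lt p ((hmS p).1 hp).1)
        exact ⟨n, fun _ => hn⟩
      · exact ⟨0, fun h => absurd h hp⟩
    choose n hn using this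
    refine ⟨S.sup n, fun p hp => ?_⟩
    refine lt_of_lt_of_le (hn p hp) ?_
    exact pow_le_pow_right₀ (h.one_lt p ((hmS p).1 hp).1).le (Finset.le_sup hp)
  -- embedding in a finite box
  have hfin : {a : ℝ →₀ ℕ | a.support ⊆ S ∧ ∀ p, a p ≤ N}.Finite := by
    have : {a : ℝ →₀ ℕ | a.support ⊆ S ∧ ∀ p, a p ≤ N} ⊆
        ((Finset.Iic (∑ p ∈ S, Finsupp.single p N) : Finset (ℝ →₀ ℕ)) : Set (ℝ →₀ ℕ)) := by
      intro a ha
      rw [Finset.coe_Iic, Set.mem_Iic, Finsupp.le_def]
      intro p
      rw [Finsupp.finsetSum_apply]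
      by_cases hp : p ∈ S
      · rw [Finset.sum_eq_single_of_mem p hp]
        · rw [Finsupp.single_eq_same]; exact ha.2 p
        · intro q _ hq; rw [Finsupp.single_eq_of_ne (Ne.symm hq)]
      · have : a p = 0 := by
          by_contra h0
          exact hp (ha.1 (Finsupp.mem_support_iff.2 h0))
        rw [this]; exact Nat.zero_le _
    exact (Finset.finite_toSet _).subset this
  refine hfin.subset fun a ha => ?_
  obtain ⟨h1, h2⟩ := mem_ints.1 ha
  have hsup : a.support ⊆ S := by
    intro p hp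
    rw [Finsupp.mem_support_iff] at hp
    exact (hmS p).2 ⟨h1 p hp, (le_val h h1 hp).trans h2⟩
  refine ⟨hsup, fun p => ?_⟩
  by_contra hc
  push Not at hc
  have hp : p ∈ S := hsup (Finsupp.mem_support_iff.2 (by omega))
  have h3 := hN p hp
  have hp1 := h.one_lt p ((hmS p).1 hp).1
  have h4 : p ^ N ≤ p ^ (a p) := pow_le_pow_right₀ hp1.le hc.le
  have h5 := pow_le_val h h1 (p := p) (by linarith)
  linarith

theorem num_small {P : Set ℝ} (h : IsSys P) {x : ℝ} (hx : x < 1) : num P x = 0 := by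
  have : ints P x = ∅ := by
    rw [Set.eq_empty_iff_forall_notMem]
    intro a ha
    obtain ⟨h1, h2⟩ := mem_ints.1 ha
    have := one_le_val h h1
    linarith
  rw [num, this, Set.ncard_empty]

theorem num_congr {P P' : Set ℝ} (h : IsSys P) (h' : IsSys P') {x : ℝ} (hx : P ∩ Iic x = P' ∩ Iic x) :
    num P x = num P' x := by
  have key : ∀ {A B : Set ℝ}, IsSys A → A ∩ Iic x = B ∩ Iic x → ints A x ⊆ ints B x := by
    intro A B hA hAB a ha
    obtain ⟨h1, h2⟩ := mem_ints.1 ha
    refine mem_ints.2 ⟨fun p hp => ?_, h2⟩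
    have : p ∈ A ∩ Iic x := ⟨h1 p hp, (le_val hA h1 hp).trans h2⟩
    rw [hAB] at this
    exact this.1
  rw [num, num, Set.Subset.antisymm (key h hx) (key h' hx.symm)]

theorem val_add_single {r : ℝ} (a : ℝ →₀ ℕ) : val (a + Finsupp.single r 1) = val a * r := by
  unfold val
  rw [Finsupp.prod_add_index' (fun p => pow_zero p) (fun p m n => pow_add p m n),
    Finsupp.prod_single_index (pow_zero r), pow_one]

/-- separate the `a` with `a r = 0` and the `a` with `a r ≥ 1` (subtract `single r 1`); uses `ints_fin` -/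
theorem num_erase {P : Set ℝ} (h : IsSys P) {r : ℝ} (hr : r ∈ P) (x : ℝ) :
    num P x = num (P \ {r}) x + num P (x / r) := by
  classical
  have hr1 := h.one_lt r hr
  have hr0 : 0 < r := by linarith
  have e1 : ints P x = ints (P \ {r}) x ∪ (fun a => a + Finsupp.single r 1) '' ints P (x / r) := by
    ext a
    constructor
    · intro ha
      obtain ⟨h1, h2⟩ := mem_ints.1 ha
      by_cases h0 : a r = 0
      · left
        refine mem_ints.2 ⟨fun p hp => ⟨h1 p hp, ?_⟩, h2⟩
        rintro rfl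
        exact hp h0
      · right
        refine ⟨a - Finsupp.single r 1, ?_, ?_⟩
        · have e : a - Finsupp.single r 1 + Finsupp.single r 1 = a := by
            apply tsub_add_cancel_of_le
            rw [Finsupp.single_le_iff]
            exact Nat.one_le_iff_ne_zero.2 h0
          refine mem_ints.2 ⟨fun p hp => h1 p ?_, ?_⟩
          · intro h00
            apply hp
            rw [Finsupp.tsub_apply, h00, Nat.zero_sub]
          · rw [le_div_iff₀ hr0, ← val_add_single, e]
            exact h2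
        · show a - Finsupp.single r 1 + Finsupp.single r 1 = a
          apply tsub_add_cancel_of_le
          rw [Finsupp.single_le_iff]
          exact Nat.one_le_iff_ne_zero.2 h0
    · rintro (ha | ⟨b, hb, rfl⟩)
      · obtain ⟨h1, h2⟩ := mem_ints.1 ha
        exact mem_ints.2 ⟨fun p hp => (h1 p hp).1, h2⟩
      · obtain ⟨h1, h2⟩ := mem_ints.1 hb
        refine mem_ints.2 ⟨fun p hp => ?_, ?_⟩
        · by_cases hpr : p = r
          · rw [hpr]; exact hr
          · apply h1 p
            intro h0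
            apply hp
            show ((b + Finsupp.single r 1 : ℝ →₀ ℕ)) p = 0
            rw [Finsupp.add_apply, h0, Finsupp.single_eq_of_ne hpr, add_zero]
        · rw [val_add_single, ← le_div_iff₀ hr0]
          exact h2
  have hdis : Disjoint (ints (P \ {r}) x) ((fun a => a + Finsupp.single r 1) '' ints P (x / r)) := by
    rw [Set.disjoint_left]
    rintro a ha ⟨b, hb, rfl⟩
    have h1 := (mem_ints.1 ha).1 r
    have h2 : ((b + Finsupp.single r 1 : ℝ →₀ ℕ)) r ≠ 0 := by
      rw [Finsupp.add_apply, Finsupp.single_eq_same]; omega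
    exact (h1 h2).2 rfl
  have hsub : ints (P \ {r}) x ⊆ ints P x := by
    rw [e1]; exact Set.subset_union_left
  have hf1 : (ints (P \ {r}) x).Finite := (ints_fin h x).subset hsub
  have hf2 : ((fun a => a + Finsupp.single r 1) '' ints P (x / r)).Finite := (ints_fin h _).image _
  rw [num, num, num, e1, Set.ncard_union_eq hdis hf1 hf2]
  congr 1
  rw [Set.ncard_image_of_injective]
  exact add_left_injective _

end Pool.Agent.H41.SZ
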